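import Mathlib
import Pool.Agent.CDom.StmtDefs
import Pool.Agent.CDom.Defs
import Pool.Agent.CDom.Basic

/-!
# Project CDM (MP_6e88d0_lc): minimal connected dominating sets of graphs without large minors

Internal definitions.  `Conn G X a b` (from `CDom/Defs.lean`): `b` can be reached from `a` by steps
along edges which end in `X`; basic lemmas `conn_single`, `conn_mono`, `conn_mem`, `conn_symm` are
in `CDom/Basic.lean` (transitivity is `Relation.ReflTransGen.trans`).
-/

set_option autoImplicit false

namespace Pool.Agent.CDM

open Finset Pool.Agent.CDom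

variable {V : Type} [Fintype V] [LinearOrder V]

/-- nonempty connected vertex set -/
def CSet (G : SimpleGraph V) (B : Finset V) : Prop :=
  B.Nonempty ∧ ∀ a ∈ B, ∀ b ∈ B, Conn G B a b

/-- `x` has a neighbour in `A` -/
def Nb (G : SimpleGraph V) (A : Finset V) (x : V) : Prop := ∃ a ∈ A, G.Adj a x

/-- there is an edge between `A` and `B` -/
def Touch (G : SimpleGraph V) (A B : Finset V) : Prop := ∃ a ∈ A, ∃ b ∈ B, G.Adj a b

open Classical in
/-- the members of `W` adjacent to `A` -/
noncomputable def nbW (G : SimpleGraph V) (W A : Finset V) : Finset V := W.filter fun x => Nb G A x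

open Classical in
/-- number of ordered pairs of different members of the family which are joined by an edge -/
noncomputable def pr {ι : Type} (G : SimpleGraph V) (I : Finset ι) (B : ι → Finset V) : ℕ :=
  ((I ×ˢ I).filter fun p => p.1 ≠ p.2 ∧ Touch G (B p.1) (B p.2)).card

/-- every family of pairwise disjoint connected sets, each of which contains a vertex with property
`R`, has at most `c` times as many ordered pairs of adjacent members as members -/
def RSparse (G : SimpleGraph V) (R : V → Prop) (c : ℕ) : Prop :=
  ∀ (ι : Type) (I : Finset ι) (B : ι → Finset V), (∀ i ∈ I, CSet G (B i) ∧ ∃ v ∈ B i, R v) →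
    (∀ i ∈ I, ∀ j ∈ I, i ≠ j → Disjoint (B i) (B j)) → pr G I B ≤ c * I.card

open Classical in
/-- number of ordered pairs of adjacent vertices in `W` -/
noncomputable def dg (J : SimpleGraph V) (W : Finset V) : ℕ :=
  ((W ×ˢ W).filter fun p => J.Adj p.1 p.2).card

end Pool.Agent.CDM
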