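import Mathlib
import Pool.Agent.CDM.Defs

/-!
# Project CDM, module JG: the contraction lemma

`W` is a set of vertices with property `R`; `K i` (`i ∈ I`) are disjoint connected sets outside `W`.
There is a graph `J` on `W`, hereditarily sparse, containing `G[W]`, and a set `U` of used indices
with few incidences, such that the neighbourhoods in `W` of the unused `K i` are cliques of `J`.

Proof.  Induction on `I` (`Finset.induction_on`) with the following stronger statement: there are
`B : V → Finset V` and `U ⊆ I` with `w ∈ B w`, `CSet G (B w)`, `B w ⊆ {w} ∪ U.biUnion K` for `w ∈ W`,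
`B w`, `B w'` disjoint for `w ≠ w'` in `W`, and
`∑ i ∈ U, (nbW G W (K i)).card ≤ (c + 2) * pr G W B`, and for `i ∈ I \ U` all `x ≠ y` in `nbW G W (K i)`
satisfy `Touch G (B x) (B y)`.  (`J` = adjacency `Touch G (B x) (B y)` for `x ≠ y` in `W`.)
New index `i`: let `S = nbW G W (K i)`.  If `Touch G (B x) (B y)` for all `x ≠ y` in `S`, keep `B`, `U`.
Otherwise choose `w ∈ S` with the least number `δ` of `y ∈ S`, `y ≠ w`, with `Touch G (B w) (B y)`.
By `RSparse` for the family `(B x)_{x ∈ S}` the sum of these numbers over `S` is at most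
`c * S.card`, so `δ ≤ c`; `δ < S.card - 1` as not all pairs touch.  Replace `B w` by `B w ∪ K i`
(connected, since `w` has a neighbour in `K i`; disjoint from the others, since `K i` is disjoint
from `W` and from the other `K j`), `U` by `insert i U`.  All old touching pairs still touch and the
`S.card - 1 - δ ≥ 1` unordered pairs `{w, y}`, `y ∈ S`, are new: `pr` increases by at least
`S.card - 1 - δ =: g ≥ 1` (even `2 g`), and `S.card ≤ g + 1 + c ≤ (c + 2) * g`.
At the end `pr G W B ≤ c * W.card` by `RSparse`; the bound for `W' ⊆ W` is `RSparse` for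
`(B w)_{w ∈ W'}`.
-/

set_option autoImplicit false

namespace Pool.Agent.CDM

open Finset Pool.Agent.CDom

variable {V : Type} [Fintype V] [LinearOrder V] {G : SimpleGraph V}

theorem jg_union {A B : Finset V} (hA : CSet G A) (hB : CSet G B) {a b : V} (ha : a ∈ A)
    (hb : b ∈ B) (hab : G.Adj a b) : CSet G (A ∪ B) := by
  refine ⟨hA.1.mono subset_union_left, ?_⟩
  have hAu : A ⊆ A ∪ B := subset_union_left
  have hBu : B ⊆ A ∪ B := subset_union_right
  have hab' : Conn G (A ∪ B) a b := conn_single hab (hBu hb)
  have hba' : Conn G (A ∪ B) b a := conn_single hab.symm (hAu ha)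
  have key : ∀ x ∈ A ∪ B, Conn G (A ∪ B) x a ∧ Conn G (A ∪ B) a x := by
    intro x hx
    rcases mem_union.1 hx with h | h
    · exact ⟨conn_mono hAu (hA.2 x h a ha), conn_mono hAu (hA.2 a ha x h)⟩
    · exact ⟨Relation.ReflTransGen.trans (conn_mono hBu (hB.2 x h b hb)) hba',
        Relation.ReflTransGen.trans hab' (conn_mono hBu (hB.2 b hb x h))⟩
  intro x hx y hy
  exact Relation.ReflTransGen.trans (key x hx).1 (key y hy).2

theorem jg_touch_mono {A A' B B' : Finset V} (hA : A ⊆ A') (hB : B ⊆ B') (h : Touch G A B) :
    Touch G A' B' := by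
  obtain ⟨a, ha, b, hb, hab⟩ := h
  exact ⟨a, hA ha, b, hB hb, hab⟩

theorem jg_touch_symm {A B : Finset V} (h : Touch G A B) : Touch G B A := by
  obtain ⟨a, ha, b, hb, hab⟩ := h
  exact ⟨b, hb, a, ha, hab.symm⟩

theorem jg_single (w : V) : CSet G {w} := by
  refine ⟨singleton_nonempty w, ?_⟩
  intro a ha b hb
  rw [mem_singleton] at ha hb
  rw [ha, hb]
  exact Relation.ReflTransGen.refl

open Classical in
theorem jg_pr_def (S : Finset V) (B : V → Finset V) :
    pr G S B = ((S ×ˢ S).filter fun p => p.1 ≠ p.2 ∧ Touch G (B p.1) (B p.2)).card := by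
  unfold pr
  congr!

open Classical in
theorem jg_pr_eq (S : Finset V) (B : V → Finset V) :
    pr G S B = ∑ x ∈ S, (S.filter fun y => x ≠ y ∧ Touch G (B x) (B y)).card := by
  rw [jg_pr_def, card_filter, sum_product]
  refine sum_congr rfl fun x _ => ?_
  rw [card_filter]

open Classical in
theorem jg_ind {R : V → Prop} {c : ℕ} (hG : RSparse G R c) {W : Finset V}
    (hWR : ∀ w ∈ W, R w) {ι : Type} (I : Finset ι) (K : ι → Finset V)
    (hK : ∀ i ∈ I, CSet G (K i)) (hdis : ∀ i ∈ I, ∀ j ∈ I, i ≠ j → Disjoint (K i) (K j))
    (hW : ∀ i ∈ I, Disjoint (K i) W) :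
    ∃ (B : V → Finset V) (U : Finset ι), U ⊆ I ∧
      (∀ w ∈ W, w ∈ B w ∧ CSet G (B w) ∧ B w ⊆ insert w (U.biUnion K)) ∧
      (∀ w ∈ W, ∀ w' ∈ W, w ≠ w' → Disjoint (B w) (B w')) ∧
      ∑ i ∈ U, (nbW G W (K i)).card ≤ (c + 2) * pr G W B ∧
      ∀ i ∈ I, i ∉ U → ∀ x ∈ nbW G W (K i), ∀ y ∈ nbW G W (K i), x ≠ y →
        Touch G (B x) (B y) := by
  induction I using Finset.induction_on with
  | empty =>
    refine ⟨fun w => {w}, ∅, Finset.Subset.refl _, ?_, ?_, ?_, ?_⟩
    · intro w _
      exact ⟨mem_singleton_self w, jg_single w, by simp⟩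
    · intro w _ w' _ hne
      rw [disjoint_singleton]
      exact hne
    · simp
    · intro i hi
      exact absurd hi (notMem_empty i)
  | insert i I hi ih =>
    obtain ⟨B, U, hU, hB, hBd, hsum, hcl⟩ := ih (fun j hj => hK j (mem_insert_of_mem hj))
      (fun j hj k hk => hdis j (mem_insert_of_mem hj) k (mem_insert_of_mem hk))
      (fun j hj => hW j (mem_insert_of_mem hj))
    set S := nbW G W (K i) with hS
    by_cases hall : ∀ x ∈ S, ∀ y ∈ S, x ≠ y → Touch G (B x) (B y)
    · refine ⟨B, U, hU.trans (subset_insert i I), hB, hBd, hsum, ?_⟩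
      intro j hj hjU
      rcases mem_insert.1 hj with rfl | hj'
      · exact hall
      · exact hcl j hj' hjU
    · push Not at hall
      obtain ⟨x0, hx0, y0, hy0, hne0, hnt0⟩ := hall
      have hSW : S ⊆ W := by
        intro v hv
        rw [hS, nbW, mem_filter] at hv
        exact hv.1
      have hSNb : ∀ v ∈ S, Nb G (K i) v := by
        intro v hv
        rw [hS, nbW, mem_filter] at hv
        exact hv.2
      set δ : V → ℕ := fun x => (S.filter fun y => x ≠ y ∧ Touch G (B x) (B y)).card with hδ
      obtain ⟨w, hwS, hwmin⟩ := exists_min_image S δ ⟨x0, hx0⟩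
      have hw : w ∈ W := hSW hwS
      have hScard : 0 < S.card := card_pos.2 ⟨x0, hx0⟩
      -- `δ w ≤ c`
      have h1 : δ w ≤ c := by
        have h2 : pr G S B ≤ c * S.card := hG V S B
          (fun v hv => ⟨(hB v (hSW hv)).2.1, v, (hB v (hSW hv)).1, hWR v (hSW hv)⟩)
          (fun v hv v' hv' hne => hBd v (hSW hv) v' (hSW hv') hne)
        rw [jg_pr_eq] at h2
        have h3 : S.card * δ w ≤ ∑ x ∈ S, δ x := by
          rw [← smul_eq_mul]
          exact card_nsmul_le_sum S δ (δ w) hwmin
        have h4 : S.card * δ w ≤ S.card * c := by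
          rw [mul_comm S.card c]
          exact h3.trans h2
        exact Nat.le_of_mul_le_mul_left h4 hScard
      -- `δ w + 2 ≤ S.card`
      have h5 : δ w + 2 ≤ S.card := by
        have h6 : δ x0 + 2 ≤ S.card := by
          have h7 : (S.filter fun y => x0 ≠ y ∧ Touch G (B x0) (B y)) ⊆
              (S.erase x0).erase y0 := by
            intro y hy
            rw [mem_filter] at hy
            rw [mem_erase, mem_erase]
            refine ⟨?_, hy.2.1.symm, hy.1⟩
            rintro rfl
            exact hnt0 hy.2.2
          have h8 := card_le_card h7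
          rw [card_erase_of_mem (mem_erase.2 ⟨hne0.symm, hy0⟩), card_erase_of_mem hx0] at h8
          have h9 : 2 ≤ S.card := by
            have h10 : ({x0, y0} : Finset V) ⊆ S := by
              intro v hv
              rw [mem_insert, mem_singleton] at hv
              rcases hv with rfl | rfl
              · exact hx0
              · exact hy0
            have h11 := card_le_card h10
            rw [card_pair hne0] at h11
            exact h11
          show (S.filter fun y => x0 ≠ y ∧ Touch G (B x0) (B y)).card + 2 ≤ S.card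
          omega
        have h12 := hwmin x0 hx0
        omega
      set B' : V → Finset V := Function.update B w (B w ∪ K i) with hB'
      have hB'w : B' w = B w ∪ K i := Function.update_self w _ B
      have hB'ne : ∀ v, v ≠ w → B' v = B v := fun v hv => Function.update_of_ne hv _ B
      have hBB' : ∀ v, B v ⊆ B' v := by
        intro v
        by_cases hv : v = w
        · rw [hv, hB'w]
          exact subset_union_left
        · rw [hB'ne v hv]
      have hKi : CSet G (K i) := hK i (mem_insert_self i I)
      have hKiW : Disjoint (K i) W := hW i (mem_insert_self i I)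
      have hKB : ∀ v ∈ W, Disjoint (K i) (B v) := by
        intro v hv
        refine Finset.disjoint_left.2 fun a ha hav => ?_
        rcases mem_insert.1 ((hB v hv).2.2 hav) with h | h
        · rw [h] at ha
          exact Finset.disjoint_left.1 hKiW ha hv
        · rw [mem_biUnion] at h
          obtain ⟨j, hj, haj⟩ := h
          have hij : i ≠ j := by
            rintro rfl
            exact hi (hU hj)
          exact Finset.disjoint_left.1 (hdis i (mem_insert_self i I) j
            (mem_insert_of_mem (hU hj)) hij) ha haj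
      have htm : ∀ x y, Touch G (B x) (B y) → Touch G (B' x) (B' y) := fun x y h =>
        jg_touch_mono (hBB' x) (hBB' y) h
      refine ⟨B', insert i U, insert_subset_insert i hU, ?_, ?_, ?_, ?_⟩
      · intro v hv
        obtain ⟨hv1, hv2, hv3⟩ := hB v hv
        by_cases hvw : v = w
        · subst hvw
          rw [hB'w]
          refine ⟨mem_union_left _ hv1, ?_, ?_⟩
          · obtain ⟨a, ha, hav⟩ := hSNb v hwS
            exact jg_union hv2 hKi hv1 ha hav.symm
          · intro a ha
            rw [biUnion_insert]
            rcases mem_union.1 ha with h | h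
            · rcases mem_insert.1 (hv3 h) with h' | h'
              · rw [h']
                exact mem_insert_self _ _
              · exact mem_insert_of_mem (mem_union_right _ h')
            · exact mem_insert_of_mem (mem_union_left _ h)
        · rw [hB'ne v hvw]
          refine ⟨hv1, hv2, hv3.trans ?_⟩
          rw [biUnion_insert]
          exact insert_subset_insert v subset_union_right
      · intro v hv v' hv' hne
        by_cases hvw : v = w
        · have hv'w : v' ≠ w := fun h => hne (hvw.trans h.symm)
          rw [hvw, hB'w, hB'ne v' hv'w, disjoint_union_left]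
          exact ⟨hBd w hw v' hv' (fun h => hv'w h.symm), hKB v' hv'⟩
        · by_cases hv'w : v' = w
          · rw [hv'w, hB'w, hB'ne v hvw, disjoint_union_right]
            exact ⟨hBd v hv w hw hvw, (hKB v hv).symm⟩
          · rw [hB'ne v hvw, hB'ne v' hv'w]
            exact hBd v hv v' hv' hne
      · have hiU : i ∉ U := fun h => hi (hU h)
        rw [sum_insert hiU]
        -- the number of new pairs
        set T := S.filter fun y => w ≠ y ∧ ¬ Touch G (B w) (B y) with hT
        have hTcard : T.card + δ w + 1 = S.card := by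
          have h13 : T ∪ (S.filter fun y => w ≠ y ∧ Touch G (B w) (B y)) = S.erase w := by
            ext y
            rw [mem_union, hT, mem_filter, mem_filter, mem_erase]
            constructor
            · rintro (⟨h, h', _⟩ | ⟨h, h', _⟩)
              · exact ⟨h'.symm, h⟩
              · exact ⟨h'.symm, h⟩
            · rintro ⟨h, h'⟩
              by_cases ht : Touch G (B w) (B y)
              · exact Or.inr ⟨h', h.symm, ht⟩
              · exact Or.inl ⟨h', h.symm, ht⟩
          have h14 : Disjoint T (S.filter fun y => w ≠ y ∧ Touch G (B w) (B y)) := by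
            refine Finset.disjoint_left.2 fun y hy hy' => ?_
            rw [hT, mem_filter] at hy
            rw [mem_filter] at hy'
            exact hy.2.2 hy'.2.2
          have h15 := card_union_of_disjoint h14
          rw [h13, card_erase_of_mem hwS] at h15
          show T.card + (S.filter fun y => w ≠ y ∧ Touch G (B w) (B y)).card + 1 = S.card
          omega
        have hpr : pr G W B + T.card ≤ pr G W B' := by
          rw [jg_pr_def, jg_pr_def]
          have h16 : (T.image fun y => (w, y)).card = T.card :=
            card_image_of_injective T (fun a b h => (Prod.mk.inj h).2)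
          rw [← h16, ← card_union_of_disjoint]
          · apply card_le_card
            intro p hp
            rcases mem_union.1 hp with h | h
            · rw [mem_filter] at h ⊢
              exact ⟨h.1, h.2.1, htm _ _ h.2.2⟩
            · obtain ⟨y, hy, rfl⟩ := mem_image.1 h
              rw [hT, mem_filter] at hy
              rw [mem_filter, mem_product]
              refine ⟨⟨hw, hSW hy.1⟩, hy.2.1, ?_⟩
              obtain ⟨a, ha, hay⟩ := hSNb y hy.1
              refine ⟨a, ?_, y, hBB' y (hB y (hSW hy.1)).1, hay⟩
              show a ∈ B' w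
              rw [hB'w]
              exact mem_union_right _ ha
          · refine Finset.disjoint_left.2 fun p hp hp' => ?_
            rw [mem_filter] at hp
            obtain ⟨y, hy, rfl⟩ := mem_image.1 hp'
            rw [hT, mem_filter] at hy
            exact hy.2.2 hp.2.2
        have h17 : S.card ≤ (c + 2) * T.card := by
          have h18 : 1 ≤ T.card := by omega
          have h19 : (c + 2) * T.card = T.card + (c + 1) * T.card := by ring
          have h20 : (c + 1) * 1 ≤ (c + 1) * T.card := Nat.mul_le_mul_left _ h18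
          omega
        calc S.card + ∑ j ∈ U, (nbW G W (K j)).card ≤
              (c + 2) * T.card + (c + 2) * pr G W B := add_le_add h17 hsum
          _ = (c + 2) * (pr G W B + T.card) := by ring
          _ ≤ (c + 2) * pr G W B' := Nat.mul_le_mul_left _ hpr
      · intro j hj hjU x hx y hy hxy
        rw [mem_insert, not_or] at hjU
        rcases mem_insert.1 hj with h | h
        · exact absurd h hjU.1
        · exact htm x y (hcl j h hjU.2 x hx y hy hxy)

theorem exists_J {R : V → Prop} {c : ℕ} (hG : RSparse G R c) {W : Finset V}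
    (hWR : ∀ w ∈ W, R w) {ι : Type} (I : Finset ι) (K : ι → Finset V)
    (hK : ∀ i ∈ I, CSet G (K i)) (hdis : ∀ i ∈ I, ∀ j ∈ I, i ≠ j → Disjoint (K i) (K j))
    (hW : ∀ i ∈ I, Disjoint (K i) W) :
    ∃ (J : SimpleGraph V) (U : Finset ι), U ⊆ I ∧
      (∀ W' ⊆ W, dg J W' ≤ c * W'.card) ∧
      (∀ x ∈ W, ∀ y ∈ W, G.Adj x y → J.Adj x y) ∧
      ∑ i ∈ U, (nbW G W (K i)).card ≤ (c + 2) * (c * W.card) ∧
      ∀ i ∈ I, i ∉ U → ∀ x ∈ nbW G W (K i), ∀ y ∈ nbW G W (K i), x ≠ y → J.Adj x y := by
  classical
  obtain ⟨B, U, hU, hB, hBd, hsum, hcl⟩ := jg_ind hG hWR I K hK hdis hW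
  have hpr : ∀ W' ⊆ W, pr G W' B ≤ c * W'.card := by
    intro W' hW'
    exact hG V W' B (fun v hv => ⟨(hB v (hW' hv)).2.1, v, (hB v (hW' hv)).1, hWR v (hW' hv)⟩)
      (fun v hv v' hv' hne => hBd v (hW' hv) v' (hW' hv') hne)
  obtain ⟨J, hJ⟩ : ∃ J : SimpleGraph V, ∀ x y, J.Adj x y ↔ (x ≠ y ∧ Touch G (B x) (B y)) :=
    ⟨{ Adj := fun x y => x ≠ y ∧ Touch G (B x) (B y)
       symm := ⟨fun x y h => ⟨h.1.symm, jg_touch_symm h.2⟩⟩
       loopless := ⟨fun x h => h.1 rfl⟩ }, fun _ _ => Iff.rfl⟩
  refine ⟨J, U, hU, ?_, ?_, ?_, ?_⟩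
  · intro W' hW'
    refine le_trans ?_ (hpr W' hW')
    rw [jg_pr_def]
    unfold dg
    apply card_le_card
    intro p hp
    rw [mem_filter] at hp ⊢
    exact ⟨hp.1, (hJ _ _).1 hp.2⟩
  · intro x hx y hy hxy
    exact (hJ x y).2 ⟨hxy.ne, x, (hB x hx).1, y, (hB y hy).1, hxy⟩
  · exact hsum.trans (Nat.mul_le_mul_left _ (hpr W (Finset.Subset.refl W)))
  · intro i hi hiU x hx y hy hxy
    exact (hJ x y).2 ⟨hxy, hcl i hi hiU x hx y hy hxy⟩

end Pool.Agent.CDM
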