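import Mathlib
import Pool.Agent.CDM.Defs
import Pool.Agent.CDM.JG

/-!
# Project CDM, module Low: a vertex with few incidences

* `card_cliques`: if every nonempty `W' ⊆ W` satisfies `dg J W' ≤ c * W'.card`, then `W` has at most
  `2 ^ c * W.card` nonempty subsets `Q` all of whose pairs are adjacent in `J`, and each has at most
  `c + 1` members.  Proof: induction on `W.card`; some `x ∈ W` has at most `c` neighbours in `W` (average);
  the cliques which contain `x` are `insert x Q'` with `Q'` a subset of the neighbourhood, so at most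
  `2 ^ c`; the others lie in `W.erase x`.  Size: for a clique `Q`, `dg J Q = Q.card * (Q.card - 1) ≤ c * Q.card`.
* `exists_low`: let `hi v` mean `Δ < degree v`.  If some `x ∈ W` has degree at most `Δ`, take it: its
  neighbours in `W` and one neighbour in each adjacent `K i` are different neighbours of `x`.
  Otherwise all members of `W` satisfy `R`; take `J`, `U` from `exists_J`.  Then
  `∑_{x ∈ W} (number of neighbours of x in W) ≤ dg J W ≤ c * W.card`,
  `∑_{x ∈ W} (number of i ∈ U with x adjacent to K i) ≤ (c + 2) * (c * W.card)` (double counting),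
  and for the unused `i` the sets `nbW G W (K i)` are different cliques of `J` (`hinj`), the empty one
  contributes nothing, the others contribute at most `(c + 1) * (2 ^ c * W.card)`.
  So some `x ∈ W` has at most the average `c + (c + 2) * c + (c + 1) * 2 ^ c`.
-/

set_option autoImplicit false

namespace Pool.Agent.CDM

open Finset Pool.Agent.CDom

variable {V : Type} [Fintype V] [LinearOrder V] {G : SimpleGraph V}

open Classical in
theorem lo_dg_eq (J : SimpleGraph V) (W : Finset V) :
    dg J W = ∑ x ∈ W, (W.filter fun y => J.Adj x y).card := by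
  unfold dg
  rw [Finset.card_filter, Finset.sum_product]
  refine Finset.sum_congr rfl fun x _ => ?_
  rw [Finset.card_filter]

open Classical in
theorem lo_exists_deg {J : SimpleGraph V} {c : ℕ} {W : Finset V} (hne : W.Nonempty)
    (h : dg J W ≤ c * W.card) : ∃ x ∈ W, (W.filter fun y => J.Adj x y).card ≤ c := by
  by_contra hcon
  push Not at hcon
  have h1 : ∑ x ∈ W, c < ∑ x ∈ W, (W.filter fun y => J.Adj x y).card :=
    Finset.sum_lt_sum_of_nonempty hne fun x hx => hcon x hx
  rw [← lo_dg_eq] at h1
  simp only [Finset.sum_const, smul_eq_mul] at h1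
  rw [mul_comm] at h1
  omega

open Classical in
theorem card_cliques {J : SimpleGraph V} {c : ℕ} (W : Finset V)
    (hJ : ∀ W' ⊆ W, dg J W' ≤ c * W'.card) :
    (W.powerset.filter fun Q => Q.Nonempty ∧ ∀ x ∈ Q, ∀ y ∈ Q, x ≠ y → J.Adj x y).card ≤
      2 ^ c * W.card := by
  induction W using Finset.strongInduction with
  | H W ih =>
    rcases W.eq_empty_or_nonempty with rfl | hne
    · have : ((∅ : Finset V).powerset.filter fun Q => Q.Nonempty ∧
          ∀ x ∈ Q, ∀ y ∈ Q, x ≠ y → J.Adj x y) = ∅ := by
        apply Finset.filter_eq_empty_iff.mpr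
        intro Q hQ hh
        rw [Finset.mem_powerset, Finset.subset_empty] at hQ
        subst hQ
        exact Finset.not_nonempty_empty hh.1
      rw [this]
      simp
    · obtain ⟨x, hx, hdeg⟩ := lo_exists_deg hne (hJ W (Finset.Subset.refl W))
      have hih := ih (W.erase x) (Finset.erase_ssubset hx)
        (fun W' hW' => hJ W' (hW'.trans (Finset.erase_subset x W)))
      set P : Finset V → Prop := fun Q => Q.Nonempty ∧ ∀ x ∈ Q, ∀ y ∈ Q, x ≠ y → J.Adj x y with hP
      have hsub : W.powerset.filter P ⊆
          (((W.filter fun y => J.Adj x y).powerset).image fun Q => insert x Q) ∪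
            (W.erase x).powerset.filter P := by
        intro Q hQ
        rw [Finset.mem_filter, Finset.mem_powerset] at hQ
        obtain ⟨hQW, hQP⟩ := hQ
        rw [Finset.mem_union]
        by_cases hxQ : x ∈ Q
        · left
          rw [Finset.mem_image]
          refine ⟨Q.erase x, ?_, Finset.insert_erase hxQ⟩
          rw [Finset.mem_powerset]
          intro y hy
          rw [Finset.mem_erase] at hy
          rw [Finset.mem_filter]
          exact ⟨hQW hy.2, hQP.2 x hxQ y hy.2 (Ne.symm hy.1)⟩
        · right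
          rw [Finset.mem_filter, Finset.mem_powerset]
          exact ⟨Finset.subset_erase.mpr ⟨hQW, hxQ⟩, hQP⟩
      have h1 : (((W.filter fun y => J.Adj x y).powerset).image fun Q => insert x Q).card ≤ 2 ^ c := by
        refine Finset.card_image_le.trans ?_
        rw [Finset.card_powerset]
        exact Nat.pow_le_pow_right (by norm_num) hdeg
      have hcard : W.card = (W.erase x).card + 1 := (Finset.card_erase_add_one hx).symm
      calc (W.powerset.filter P).card
          ≤ _ := Finset.card_le_card hsub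
        _ ≤ _ := Finset.card_union_le _ _
        _ ≤ 2 ^ c + 2 ^ c * (W.erase x).card := Nat.add_le_add h1 hih
        _ = 2 ^ c * W.card := by rw [hcard]; ring

open Classical in
theorem lo_clique_card {J : SimpleGraph V} {c : ℕ} {Q : Finset V} (hQ : dg J Q ≤ c * Q.card)
    (hcl : ∀ x ∈ Q, ∀ y ∈ Q, x ≠ y → J.Adj x y) : Q.card ≤ c + 1 := by
  rcases Q.eq_empty_or_nonempty with rfl | hne
  · simp
  · have h1 : dg J Q = ∑ x ∈ Q, (Q.card - 1) := by
      rw [lo_dg_eq]
      refine Finset.sum_congr rfl fun x hx => ?_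
      have : (Q.filter fun y => J.Adj x y) = Q.erase x := by
        ext y
        rw [Finset.mem_filter, Finset.mem_erase]
        constructor
        · rintro ⟨hy, hxy⟩
          exact ⟨fun h => by subst h; exact J.loopless.irrefl _ hxy, hy⟩
        · rintro ⟨hne', hy⟩
          exact ⟨hy, hcl x hx y hy (Ne.symm hne')⟩
      rw [this, Finset.card_erase_of_mem hx]
    rw [h1, Finset.sum_const, smul_eq_mul, mul_comm c] at hQ
    have h2 := Nat.le_of_mul_le_mul_left hQ hne.card_pos
    omega

/-- the bound -/
def lowB (c Δ : ℕ) : ℕ := max Δ (c + (c + 2) * c + (c + 1) * 2 ^ c)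

open Classical in
theorem lo_low_deg {Δ : ℕ} {W : Finset V} {x : V}
    (hdeg : (univ.filter fun u => G.Adj x u).card ≤ Δ) {ι : Type} (I : Finset ι) (K : ι → Finset V)
    (hdis : ∀ i ∈ I, ∀ j ∈ I, i ≠ j → Disjoint (K i) (K j))
    (hW : ∀ i ∈ I, Disjoint (K i) W) :
    (W.filter fun y => G.Adj x y).card + (I.filter fun i => Nb G (K i) x).card ≤ Δ := by
  have hch : ∀ i : ι, ∃ a : V, i ∈ (I.filter fun i => Nb G (K i) x) → a ∈ K i ∧ G.Adj a x := by
    intro i
    by_cases hi : i ∈ (I.filter fun i => Nb G (K i) x)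
    · obtain ⟨a, ha, hax⟩ := (Finset.mem_filter.mp hi).2
      exact ⟨a, fun _ => ⟨ha, hax⟩⟩
    · exact ⟨x, fun h => absurd h hi⟩
  choose f hf using hch
  have hinj : Set.InjOn f (I.filter fun i => Nb G (K i) x) := by
    intro i hi j hj hij
    by_contra hne
    have h1 := (hf i hi).1
    have h2 := (hf j hj).1
    rw [← hij] at h2
    exact Finset.disjoint_left.mp (hdis i (Finset.mem_filter.mp hi).1 j
      (Finset.mem_filter.mp hj).1 hne) h1 h2
  have hcard : ((I.filter fun i => Nb G (K i) x).image f).card =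
      (I.filter fun i => Nb G (K i) x).card := Finset.card_image_of_injOn hinj
  have hdisj : Disjoint (W.filter fun y => G.Adj x y) ((I.filter fun i => Nb G (K i) x).image f) := by
    rw [Finset.disjoint_left]
    intro y hy hy'
    rw [Finset.mem_image] at hy'
    obtain ⟨i, hi, rfl⟩ := hy'
    exact Finset.disjoint_left.mp (hW i (Finset.mem_filter.mp hi).1) (hf i hi).1
      (Finset.mem_filter.mp hy).1
  rw [← hcard, ← Finset.card_union_of_disjoint hdisj]
  refine (Finset.card_le_card ?_).trans hdeg
  intro y hy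
  rw [Finset.mem_union] at hy
  rw [Finset.mem_filter]
  refine ⟨Finset.mem_univ y, ?_⟩
  rcases hy with hy | hy
  · exact (Finset.mem_filter.mp hy).2
  · rw [Finset.mem_image] at hy
    obtain ⟨i, hi, rfl⟩ := hy
    exact (hf i hi).2.symm

open Classical in
theorem exists_low {c Δ : ℕ} (hG : RSparse G (fun v => Δ < (univ.filter fun u => G.Adj v u).card) c)
    {W : Finset V} (hWne : W.Nonempty) {ι : Type} (I : Finset ι) (K : ι → Finset V)
    (hK : ∀ i ∈ I, CSet G (K i)) (hdis : ∀ i ∈ I, ∀ j ∈ I, i ≠ j → Disjoint (K i) (K j))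
    (hW : ∀ i ∈ I, Disjoint (K i) W)
    (hinj : ∀ i ∈ I, ∀ j ∈ I, i ≠ j → nbW G W (K i) ≠ nbW G W (K j)) :
    ∃ x ∈ W, (W.filter fun y => G.Adj x y).card + (I.filter fun i => Nb G (K i) x).card ≤
      lowB c Δ := by
  by_cases hlow : ∃ x ∈ W, (univ.filter fun u => G.Adj x u).card ≤ Δ
  · obtain ⟨x, hx, hdeg⟩ := hlow
    exact ⟨x, hx, (lo_low_deg hdeg I K hdis hW).trans (le_max_left _ _)⟩
  push Not at hlow
  obtain ⟨J, U, hUI, hsp, hGJ, hUs, hcl⟩ := exists_J hG hlow I K hK hdis hW
  by_contra hcon
  push Not at hcon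
  -- the sum over `W`
  have hsum : ∑ x ∈ W, (c + (c + 2) * c + (c + 1) * 2 ^ c) <
      ∑ x ∈ W, ((W.filter fun y => G.Adj x y).card + (I.filter fun i => Nb G (K i) x).card) :=
    Finset.sum_lt_sum_of_nonempty hWne fun x hx =>
      lt_of_le_of_lt (le_max_right _ _) (hcon x hx)
  rw [Finset.sum_const, smul_eq_mul, Finset.sum_add_distrib] at hsum
  have h1 : ∑ x ∈ W, (W.filter fun y => G.Adj x y).card ≤ c * W.card := by
    refine le_trans ?_ (hsp W (Finset.Subset.refl W))
    rw [lo_dg_eq]
    refine Finset.sum_le_sum fun x hx => Finset.card_le_card ?_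
    intro y hy
    rw [Finset.mem_filter] at hy ⊢
    exact ⟨hy.1, hGJ x hx y hy.1 hy.2⟩
  have h2 : ∑ x ∈ W, (I.filter fun i => Nb G (K i) x).card = ∑ i ∈ I, (nbW G W (K i)).card := by
    simp only [Finset.card_filter, nbW]
    exact Finset.sum_comm
  have h3 : ∑ i ∈ I, (nbW G W (K i)).card =
      ∑ i ∈ U, (nbW G W (K i)).card + ∑ i ∈ I \ U, (nbW G W (K i)).card := by
    rw [add_comm]
    exact (Finset.sum_sdiff hUI).symm
  have h4 : ∑ i ∈ I \ U, (nbW G W (K i)).card ≤ (c + 1) * (2 ^ c * W.card) := by
    have h5 : ∑ i ∈ I \ U, (nbW G W (K i)).card =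
        ∑ i ∈ (I \ U).filter (fun i => (nbW G W (K i)).Nonempty), (nbW G W (K i)).card := by
      rw [Finset.sum_filter]
      refine Finset.sum_congr rfl fun i _ => ?_
      split_ifs with hn
      · rfl
      · rw [Finset.not_nonempty_iff_eq_empty] at hn
        rw [hn]
        rfl
    have hmemW : ∀ i, nbW G W (K i) ⊆ W := fun i => Finset.filter_subset _ _
    have h6 : ∑ i ∈ (I \ U).filter (fun i => (nbW G W (K i)).Nonempty), (nbW G W (K i)).card ≤
        ∑ i ∈ (I \ U).filter (fun i => (nbW G W (K i)).Nonempty), (c + 1) := by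
      refine Finset.sum_le_sum fun i hi => ?_
      rw [Finset.mem_filter, Finset.mem_sdiff] at hi
      exact lo_clique_card (hsp _ (hmemW i)) (hcl i hi.1.1 hi.1.2)
    have h7 : ((I \ U).filter (fun i => (nbW G W (K i)).Nonempty)).card ≤ 2 ^ c * W.card := by
      refine le_trans ?_ (card_cliques W hsp)
      refine Finset.card_le_card_of_injOn (fun i => nbW G W (K i)) ?_ ?_
      · intro i hi
        have hi' : i ∈ (I \ U).filter (fun i => (nbW G W (K i)).Nonempty) := hi
        rw [Finset.mem_filter, Finset.mem_sdiff] at hi'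
        change nbW G W (K i) ∈ _
        rw [Finset.mem_coe, Finset.mem_filter, Finset.mem_powerset]
        exact ⟨hmemW i, hi'.2, hcl i hi'.1.1 hi'.1.2⟩
      · intro i hi j hj hij
        have hi' : i ∈ (I \ U).filter (fun i => (nbW G W (K i)).Nonempty) := hi
        have hj' : j ∈ (I \ U).filter (fun i => (nbW G W (K i)).Nonempty) := hj
        rw [Finset.mem_filter, Finset.mem_sdiff] at hi' hj'
        by_contra hne
        exact hinj i hi'.1.1 j hj'.1.1 hne hij
    rw [h5]
    refine h6.trans ?_
    rw [Finset.sum_const, smul_eq_mul, mul_comm]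
    exact Nat.mul_le_mul_left _ h7
  rw [h2, h3] at hsum
  have h8 : W.card * (c + (c + 2) * c + (c + 1) * 2 ^ c) =
      c * W.card + (c + 2) * (c * W.card) + (c + 1) * (2 ^ c * W.card) := by ring
  rw [h8] at hsum
  omega

end Pool.Agent.CDM
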