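import Mathlib
import Pool.Agent.CDM.Defs
import Pool.Agent.CDM.Low
import Pool.Agent.CDH.MinO

/-!
# Project CDM, module DegS: the clause hypergraphs are degenerate

`PH G O Z h x` (CDH/MinO.lean): `x ∈ O`, `x ∉ Z` and `x` is adjacent to the component of `h` in `G[Z]`.
`Dom G Z u` (CDom/Defs.lean): `u ∈ Z` or `u` has a neighbour in `Z`.
The hyperedges `e` of `H` are of two kinds: (K) `e` is the set of the `x` with `PH` adjacent to the
component of `w ∈ Z` in `G[Z]`, a component different from the one of `h`; (U) `e` is the set of the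
neighbours with `PH` of a vertex `u` which is not dominated by `Z`.

Proof.  Let `W` be nonempty.  If some `x ∈ W` does not satisfy `PH`, it is in no hyperedge.  So let
all members of `W` satisfy `PH`; then `W` is disjoint from `Z` and its members are dominated by `Z`.
Let `I : Finset (Finset V)` be the set of the `e ∈ H`, `e ⊆ W`.  For `e ∈ I` let `K e` be the
component of `w` (the set of the `b` with `Conn G Z w b`) in case (K), and `{u}` in case (U); in both
cases `nbW G W (K e) = e` (as `e ⊆ W`, and the members of `W` satisfy `PH`), so different `e` have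
different types; hence also `K e ≠ K e'`, and the sets `K e` are disjoint, since two components of
`G[Z]` are equal or disjoint and an undominated vertex is not in `Z`.  They are connected and
disjoint from `W` (`u ∉ W` since the members of `W` are dominated).  `exists_low` gives `x ∈ W` adjacent
to at most `lowB c Δ` of the `K e`, that is, in at most `lowB c Δ` of the `e ∈ I`.
-/

set_option autoImplicit false

namespace Pool.Agent.CDM

open Finset Pool.Agent.CDom Pool.Agent.CDH

variable {V : Type} [Fintype V] [LinearOrder V] {G : SimpleGraph V}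

open Classical in
/-- every nonempty set `W` has a member which is in at most `k` hyperedges contained in `W` -/
def Degen (k : ℕ) (H : Finset (Finset V)) : Prop :=
  ∀ W : Finset V, W.Nonempty → ∃ x ∈ W, (H.filter fun e => e ⊆ W ∧ x ∈ e).card ≤ k

open Classical in
/-- the component of `w` in `G[Z]` -/
private noncomputable def ds_comp (G : SimpleGraph V) (Z : Finset V) (w : V) : Finset V :=
  univ.filter fun b => Conn G Z w b

open Classical in
private theorem ds_mem {Z : Finset V} {w b : V} : b ∈ ds_comp G Z w ↔ Conn G Z w b := by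
  unfold ds_comp
  rw [Finset.mem_filter]
  exact ⟨fun h => h.2, fun h => ⟨Finset.mem_univ _, h⟩⟩

private theorem ds_comp_sub {Z : Finset V} {w b : V} (hw : w ∈ Z) (hb : b ∈ ds_comp G Z w) :
    b ∈ Z := conn_mem hw (ds_mem.1 hb)

private theorem ds_conn_comp {Z : Finset V} {w a : V} (ha : Conn G Z w a) :
    Conn G (ds_comp G Z w) w a := by
  unfold Conn at ha
  induction ha with
  | refl => exact Relation.ReflTransGen.refl
  | tail hxy hyz ih =>
    exact Relation.ReflTransGen.tail ih ⟨hyz.1, ds_mem.2 (Relation.ReflTransGen.tail hxy hyz)⟩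

private theorem ds_comp_cset {Z : Finset V} {w : V} : CSet G (ds_comp G Z w) := by
  have hw : w ∈ ds_comp G Z w := ds_mem.2 Relation.ReflTransGen.refl
  refine ⟨⟨w, hw⟩, fun a ha b hb => ?_⟩
  exact Relation.ReflTransGen.trans (conn_symm hw (ds_conn_comp (ds_mem.1 ha)))
    (ds_conn_comp (ds_mem.1 hb))

private theorem ds_comp_disj {Z : Finset V} {w w' : V} (hw : w ∈ Z) (hw' : w' ∈ Z)
    (hne : ds_comp G Z w ≠ ds_comp G Z w') : Disjoint (ds_comp G Z w) (ds_comp G Z w') := by
  rw [Finset.disjoint_left]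
  intro x hx hx'
  apply hne
  rw [ds_mem] at hx hx'
  have h1 : Conn G Z w w' := Relation.ReflTransGen.trans hx (conn_symm hw' hx')
  have h2 : Conn G Z w' w := Relation.ReflTransGen.trans hx' (conn_symm hw hx)
  ext b
  rw [ds_mem, ds_mem]
  exact ⟨fun hb => Relation.ReflTransGen.trans h2 hb, fun hb => Relation.ReflTransGen.trans h1 hb⟩

open Classical in
private theorem ds_exists {O Z W e : Finset V} {h : V} (hh : h ∈ Z)
    (hPH : ∀ x ∈ W, PH G O Z h x) (heW : e ⊆ W)
    (he : (∃ w ∈ Z, ¬ Conn G Z h w ∧ ∀ x, x ∈ e ↔ PH G O Z h x ∧ ∃ a, Conn G Z w a ∧ G.Adj a x) ∨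
      ∃ u, ¬ Dom G Z u ∧ ∀ x, x ∈ e ↔ PH G O Z h x ∧ G.Adj x u) :
    ∃ S : Finset V, CSet G S ∧ Disjoint S W ∧ nbW G W S = e ∧
        ((∃ w ∈ Z, S = ds_comp G Z w) ∨ ∃ u, ¬ Dom G Z u ∧ S = {u}) := by
  rcases he with ⟨w, hw, _, hx⟩ | ⟨u, hu, hx⟩
  · refine ⟨ds_comp G Z w, ds_comp_cset, ?_, ?_, Or.inl ⟨w, hw, rfl⟩⟩
    · rw [Finset.disjoint_left]
      intro x hxw hxW
      exact (hPH x hxW).2.1 (ds_comp_sub hw hxw)
    · ext x
      unfold nbW
      rw [Finset.mem_filter, hx x]
      constructor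
      · rintro ⟨hxW, a, ha, hax⟩
        exact ⟨hPH x hxW, a, ds_mem.1 ha, hax⟩
      · rintro ⟨h1, a, ha, hax⟩
        exact ⟨heW ((hx x).2 ⟨h1, a, ha, hax⟩), a, ds_mem.2 ha, hax⟩
  · refine ⟨{u}, ?_, ?_, ?_, Or.inr ⟨u, hu, rfl⟩⟩
    · refine ⟨Finset.singleton_nonempty u, fun a ha b hb => ?_⟩
      rw [Finset.mem_singleton] at ha hb
      rw [ha, hb]
      exact Relation.ReflTransGen.refl
    · rw [Finset.disjoint_singleton_left]
      intro huW
      obtain ⟨_, _, a, ha, hau⟩ := hPH u huW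
      exact hu (Or.inr ⟨a, conn_mem hh ha, hau⟩)
    · ext x
      unfold nbW
      rw [Finset.mem_filter, hx x]
      constructor
      · rintro ⟨hxW, a, ha, hax⟩
        rw [Finset.mem_singleton] at ha
        rw [ha] at hax
        exact ⟨hPH x hxW, hax.symm⟩
      · rintro ⟨h1, hxu⟩
        exact ⟨heW ((hx x).2 ⟨h1, hxu⟩), u, Finset.mem_singleton_self u, hxu.symm⟩

open Classical in
theorem degen_sets {c Δ : ℕ}
    (hG : RSparse G (fun v => Δ < (univ.filter fun u => G.Adj v u).card) c)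
    {O Z : Finset V} {h : V} (hh : h ∈ Z) (H : Finset (Finset V))
    (hH : ∀ e ∈ H,
      (∃ w ∈ Z, ¬ Conn G Z h w ∧ ∀ x, x ∈ e ↔ PH G O Z h x ∧ ∃ a, Conn G Z w a ∧ G.Adj a x) ∨
      ∃ u, ¬ Dom G Z u ∧ ∀ x, x ∈ e ↔ PH G O Z h x ∧ G.Adj x u) :
    Degen (lowB c Δ) H := by
  intro W hWne
  by_cases hex : ∃ x ∈ W, ¬ PH G O Z h x
  · obtain ⟨x, hxW, hx⟩ := hex
    refine ⟨x, hxW, ?_⟩
    have h0 : (H.filter fun e => e ⊆ W ∧ x ∈ e) = ∅ := by
      refine Finset.filter_eq_empty_iff.mpr ?_
      rintro e he ⟨_, hxe⟩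
      rcases hH e he with ⟨w, _, _, hw⟩ | ⟨u, _, hu⟩
      · exact hx ((hw x).1 hxe).1
      · exact hx ((hu x).1 hxe).1
    rw [h0]
    simp
  push Not at hex
  have hex' : ∀ e : Finset V, ∃ S : Finset V, e ∈ (H.filter fun e => e ⊆ W) →
      CSet G S ∧ Disjoint S W ∧ nbW G W S = e ∧
        ((∃ w ∈ Z, S = ds_comp G Z w) ∨ ∃ u, ¬ Dom G Z u ∧ S = {u}) := by
    intro e
    by_cases he : e ∈ (H.filter fun e => e ⊆ W)
    · obtain ⟨S, hS⟩ := ds_exists hh hex (Finset.mem_filter.mp he).2
        (hH e (Finset.mem_filter.mp he).1)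
      exact ⟨S, fun _ => hS⟩
    · exact ⟨∅, fun h' => absurd h' he⟩
  choose K hK using hex'
  obtain ⟨x, hxW, hx⟩ := exists_low hG hWne (H.filter fun e => e ⊆ W) K
    (fun e he => (hK e he).1)
    (fun e he e' he' hne => by
      have hKne : K e ≠ K e' := by
        intro heq
        apply hne
        rw [← (hK e he).2.2.1, ← (hK e' he').2.2.1, heq]
      rcases (hK e he).2.2.2 with ⟨w, hw, h1⟩ | ⟨u, hu, h1⟩ <;>
        rcases (hK e' he').2.2.2 with ⟨w', hw', h2⟩ | ⟨u', hu', h2⟩
      · rw [h1, h2] at hKne ⊢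
        exact ds_comp_disj hw hw' hKne
      · rw [h1, h2, Finset.disjoint_singleton_right]
        exact fun hm => hu' (Or.inl (ds_comp_sub hw hm))
      · rw [h1, h2, Finset.disjoint_singleton_left]
        exact fun hm => hu (Or.inl (ds_comp_sub hw' hm))
      · rw [h1, h2] at hKne ⊢
        rw [Finset.disjoint_singleton_left, Finset.mem_singleton]
        exact fun hm => hKne (by rw [hm]))
    (fun e he => (hK e he).2.1)
    (fun e he e' he' hne => by
      rw [(hK e he).2.2.1, (hK e' he').2.2.1]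
      exact hne)
  refine ⟨x, hxW, ?_⟩
  refine le_trans (Finset.card_le_card ?_) ((Nat.le_add_left _ _).trans hx)
  intro e he
  rw [Finset.mem_filter] at he
  have heI : e ∈ (H.filter fun e => e ⊆ W) := Finset.mem_filter.mpr ⟨he.1, he.2.1⟩
  rw [Finset.mem_filter]
  refine ⟨heI, ?_⟩
  have hxe := he.2.2
  rw [← (hK e heI).2.2.1] at hxe
  exact (Finset.mem_filter.mp hxe).2

end Pool.Agent.CDM
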