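import Mathlib
import Pool.Agent.Lib.PolyTime.Lib
import Pool.Agent.CDom.Prog
import Pool.Agent.CDom.PT1
import Pool.Agent.CDom.Parse
import Pool.Agent.CDH.Prog
import Pool.Agent.CDH.ProgB

/-!
# Project CDM: hypergraph dualization for degenerate hypergraphs (Eiter, Gottlob, Makino)

Program and polynomial running time.  `egm k m H s`: vertices `0, .., m-1`, hyperedges `H`, budget
`s`; nothing if the budget is too small, otherwise the list of the minimal transversals, provided
that every nonempty vertex set `W` has a member which is in at most `k` hyperedges contained in `W`.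
-/

set_option autoImplicit false

namespace Pool.Agent.CDM

open Pool.Agent.Lib.PT Pool.Agent.CDom Pool.Agent.CDom.Prog Pool.Agent.CDH

/-- the hyperedges contained in `A` -/
def eIn (H : List (List ℕ)) (A : List ℕ) : List (List ℕ) := H.filter fun e => e.all fun x => mem x A

/-- `T` meets all members of `F` -/
def hitsL (F : List (List ℕ)) (T : List ℕ) : Bool := F.all fun e => e.any fun x => mem x T

/-- greedy minimalisation -/
def greedyT (F : List (List ℕ)) (T : List ℕ) : List ℕ :=
  T.foldl (fun T' v => bif hitsL F (del T' v) then del T' v else T') T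

/-- sorted list of the members below `m` -/
def canM (m : ℕ) (T : List ℕ) : List ℕ := (List.range m).filter fun v => mem v T

/-- the new list of minimal transversals -/
def egmNew (k m : ℕ) (F L : List (List ℕ)) : List (List ℕ) :=
  dedup (((L.flatMap fun T => (tuples m k).map fun P =>
    T ++ P.filter fun x => decide (x < m)).filter fun T => hitsL F T).map fun T =>
      canM m (greedyT F T))

/-- one step; `a = ((m, H), (ord, s))` -/
def egmStep (k : ℕ) (a : (ℕ × List (List ℕ)) × (List ℕ × ℕ)) (st : Bool × List (List ℕ))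
    (j : ℕ) : Bool × List (List ℕ) :=
  bif st.1 && decide ((egmNew k a.1.1 (eIn a.1.2 (a.2.1.take (j + 1))) st.2).length ≤ a.2.2) then
    (true, egmNew k a.1.1 (eIn a.1.2 (a.2.1.take (j + 1))) st.2)
  else (false, [])

/-- start -/
def egmStart (H : List (List ℕ)) : Bool × List (List ℕ) :=
  (true, bif (eIn H []).isEmpty then [[]] else [])

/-- all steps -/
def egmRun (k : ℕ) (a : (ℕ × List (List ℕ)) × (List ℕ × ℕ)) : Bool × List (List ℕ) :=
  (List.range a.1.1).foldl (egmStep k a) (egmStart a.1.2)

/-- the next vertex of the order (from the end) -/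
def pickH (k : ℕ) (H : List (List ℕ)) (A : List ℕ) : ℕ :=
  (A.filter fun v => decide ((dedup ((eIn H A).filter fun e => mem v e)).length ≤ k)).headD
    (A.headD 0)

/-- the order of the vertices -/
def ordH (k m : ℕ) (H : List (List ℕ)) : List ℕ :=
  (fun acc => pickH k H (compl m acc) :: acc)^[m] []

/-- the algorithm -/
def egm (k m : ℕ) (H : List (List ℕ)) (s : ℕ) : List (List (List ℕ)) :=
  bif (egmRun k ((m, H.map (canM m)), (ordH k m (H.map (canM m)), s))).1 then
    [(egmRun k ((m, H.map (canM m)), (ordH k m (H.map (canM m)), s))).2] else []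

/-! ### polynomial time -/

section

variable {α : Type*} [Enc α]

theorem pt_eIn {H : α → List (List ℕ)} {A : α → List ℕ} (hH : PolyTime H) (hA : PolyTime A) :
    PolyTime (fun a => eIn (H a) (A a)) := by
  unfold eIn
  refine PolyTime.filter (f := fun a (e : List ℕ) => e.all fun x => mem x (A a)) hH ?_
  exact PolyTime.all (f := fun (q : α × List ℕ) (x : ℕ) => mem x (A q.1)) PolyTime.id.snd
    (pt_mem PolyTime.id.snd (hA.comp PolyTime.id.fst.fst))

theorem pt_hitsL {F : α → List (List ℕ)} {T : α → List ℕ} (hF : PolyTime F) (hT : PolyTime T) :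
    PolyTime (fun a => hitsL (F a) (T a)) := by
  unfold hitsL
  refine PolyTime.all (f := fun a (e : List ℕ) => e.any fun x => mem x (T a)) hF ?_
  exact PolyTime.any (f := fun (q : α × List ℕ) (x : ℕ) => mem x (T q.1)) PolyTime.id.snd
    (pt_mem PolyTime.id.snd (hT.comp PolyTime.id.fst.fst))

theorem pt_greedyT {F : α → List (List ℕ)} {T : α → List ℕ} (hF : PolyTime F)
    (hT : PolyTime T) : PolyTime (fun a => greedyT (F a) (T a)) := by
  unfold greedyT
  refine PolyTime.foldl_add' (f := fun a (T' : List ℕ) (v : ℕ) =>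
    bif hitsL (F a) (del T' v) then del T' v else T') hT hT ?_ ?_
  · exact PolyTime.cond (pt_hitsL (hF.comp PolyTime.id.fst)
      (pt_del PolyTime.id.snd.fst PolyTime.id.snd.snd))
      (pt_del PolyTime.id.snd.fst PolyTime.id.snd.snd) PolyTime.id.snd.fst
  · refine ⟨0, fun a x y => ?_⟩
    rw [Polynomial.eval_zero, Nat.add_zero]
    cases h : hitsL (F a) (del x y)
    · exact le_rfl
    · exact sz_filter_le _ _

theorem pt_canM {m : α → ℕ} {T : α → List ℕ} (hm : PolyTime m) (hT : PolyTime T) :
    PolyTime (fun a => canM (m a) (T a)) := by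
  unfold canM
  exact PolyTime.filter (f := fun a (v : ℕ) => mem v (T a)) hm.range
    (pt_mem PolyTime.id.snd (hT.comp PolyTime.id.fst))

theorem pt_egmNew (k : ℕ) {m : α → ℕ} {F L : α → List (List ℕ)} (hm : PolyTime m)
    (hF : PolyTime F) (hL : PolyTime L) : PolyTime (fun a => egmNew k (m a) (F a) (L a)) := by
  unfold egmNew
  refine pt_dedup ?_
  refine PolyTime.map (f := fun a (T : List ℕ) => canM (m a) (greedyT (F a) T)) ?_ ?_
  · refine PolyTime.filter (f := fun a (T : List ℕ) => hitsL (F a) T) ?_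
      (pt_hitsL (hF.comp PolyTime.id.fst) PolyTime.id.snd)
    refine PolyTime.flatMap (f := fun a (T : List ℕ) => (tuples (m a) k).map fun P =>
      T ++ P.filter fun x => decide (x < m a)) hL ?_
    refine PolyTime.map (f := fun (q : α × List ℕ) (P : List ℕ) =>
      q.2 ++ P.filter fun x => decide (x < m q.1)) (pt_tuples (hm.comp PolyTime.id.fst) k) ?_
    refine PolyTime.append PolyTime.id.fst.snd ?_
    exact PolyTime.filter (f := fun (r : (α × List ℕ) × List ℕ) (x : ℕ) => decide (x < m r.1.1))
      PolyTime.id.snd (PolyTime.lt PolyTime.id.snd (hm.comp PolyTime.id.fst.fst.fst))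
  · exact pt_canM (hm.comp PolyTime.id.fst) (pt_greedyT (hF.comp PolyTime.id.fst) PolyTime.id.snd)

theorem pt_pickH (k : ℕ) {H : α → List (List ℕ)} {A : α → List ℕ} (hH : PolyTime H)
    (hA : PolyTime A) : PolyTime (fun a => pickH k (H a) (A a)) := by
  unfold pickH
  refine PolyTime.headD (PolyTime.filter (f := fun a (v : ℕ) =>
    decide ((dedup ((eIn (H a) (A a)).filter fun e => mem v e)).length ≤ k)) hA ?_)
    (PolyTime.headD hA (PolyTime.const 0))
  refine PolyTime.le (PolyTime.length (pt_dedup ?_)) (PolyTime.const k)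
  exact PolyTime.filter (f := fun (q : α × ℕ) (e : List ℕ) => mem q.2 e)
    ((pt_eIn hH hA).comp PolyTime.id.fst) (pt_mem PolyTime.id.fst.snd PolyTime.id.snd)

end

theorem pickH_mem_or (k : ℕ) (H : List (List ℕ)) (A : List ℕ) :
    pickH k H A ∈ A ∨ pickH k H A = 0 := by
  unfold pickH
  rcases headD_mem_or (A.filter fun v =>
    decide ((dedup ((eIn H A).filter fun e => mem v e)).length ≤ k)) (A.headD 0) with h | h
  · exact Or.inl (List.mem_of_mem_filter h)
  · rw [h]
    exact headD_mem_or A 0

theorem pt_ordH {α : Type*} [Enc α] (k : ℕ) {m : α → ℕ} {H : α → List (List ℕ)}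
    (hm : PolyTime m) (hH : PolyTime H) : PolyTime (fun a => ordH k (m a) (H a)) := by
  unfold ordH
  refine PolyTime.iterate_add (f := fun a (acc : List ℕ) =>
    pickH k (H a) (compl (m a) acc) :: acc) hm (PolyTime.const []) ?_ ?_
  · exact (pt_pickH k (hH.comp PolyTime.id.fst) (pt_compl (hm.comp PolyTime.id.fst)
      PolyTime.id.snd)).cons PolyTime.id.snd
  · have hr : PolyTime (fun a => List.range (m a)) := hm.range
    obtain ⟨p, hp⟩ := hr.sz_le
    refine ⟨p + 2, fun a x => ?_⟩
    have e2 : ((2 : Polynomial ℕ)).eval (sz a) = 2 := Polynomial.eval_ofNat _ _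
    rw [sz_list_cons, Polynomial.eval_add, e2]
    have h1 : sz (pickH k (H a) (compl (m a) x)) ≤ sz (List.range (m a)) + 1 := by
      rcases pickH_mem_or k (H a) (compl (m a) x) with h | h
      · have h2 : pickH k (H a) (compl (m a) x) ∈ List.range (m a) := by
          unfold Prog.compl at h
          exact List.mem_of_mem_filter h
        have h3 := sz_mem_lt h2
        omega
      · rw [h, sz_nat]
        omega
    have h2 := hp a
    omega

theorem sz_egmStep_le (k : ℕ) (a : (ℕ × List (List ℕ)) × (List ℕ × ℕ))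
    (st : Bool × List (List ℕ)) (j : ℕ) :
    sz (egmStep k a st j) ≤ a.2.2 * (sz (List.range a.1.1) + 1) + 10 := by
  unfold egmStep
  cases h : (st.1 &&
    decide ((egmNew k a.1.1 (eIn a.1.2 (a.2.1.take (j + 1))) st.2).length ≤ a.2.2))
  · rw [cond_false, sz_pair]
    have h1 := sz_bool_le false
    have h2 : sz ([] : List (List ℕ)) = 1 := rfl
    omega
  · rw [cond_true, sz_pair]
    rw [Bool.and_eq_true, decide_eq_true_eq] at h
    have h1 := sz_bool_le true
    have h3 : sz (egmNew k a.1.1 (eIn a.1.2 (a.2.1.take (j + 1))) st.2) ≤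
        a.2.2 * (sz (List.range a.1.1) + 1) + 1 := by
      refine sz_le_of_length h.2 ?_
      intro T hT
      unfold egmNew at hT
      have h4 := mem_dedup hT
      rw [List.mem_map] at h4
      obtain ⟨Z, _, rfl⟩ := h4
      exact sz_filter_le _ _
    omega

theorem pt_egmRun (k : ℕ) : PolyTime (egmRun k) := by
  unfold egmRun
  have hm : PolyTime (fun a : (ℕ × List (List ℕ)) × (List ℕ × ℕ) => a.1.1) := PolyTime.id.fst.fst
  have hstart : PolyTime (fun a : (ℕ × List (List ℕ)) × (List ℕ × ℕ) => egmStart a.1.2) := by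
    unfold egmStart
    exact (PolyTime.const true).pair (PolyTime.cond
      (pt_eIn PolyTime.id.fst.snd (PolyTime.const [])).isEmpty (PolyTime.const [[]])
      (PolyTime.const []))
  have hstep : PolyTime (fun q : ((ℕ × List (List ℕ)) × (List ℕ × ℕ)) ×
      (Bool × List (List ℕ)) × ℕ => egmStep k q.1 q.2.1 q.2.2) := by
    unfold egmStep
    have hnew : PolyTime (fun q : ((ℕ × List (List ℕ)) × (List ℕ × ℕ)) ×
        (Bool × List (List ℕ)) × ℕ =>
        egmNew k q.1.1.1 (eIn q.1.1.2 (q.1.2.1.take (q.2.2 + 1))) q.2.1.2) :=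
      pt_egmNew k PolyTime.id.fst.fst.fst (pt_eIn PolyTime.id.fst.fst.snd
        (PolyTime.take PolyTime.id.snd.snd.succ PolyTime.id.fst.snd.fst)) PolyTime.id.snd.fst.snd
    exact PolyTime.cond (PolyTime.and PolyTime.id.snd.fst.fst
      (PolyTime.le hnew.length PolyTime.id.fst.snd.snd)) ((PolyTime.const true).pair hnew)
      (PolyTime.const (false, []))
  refine PolyTime.foldl (f := fun (a : (ℕ × List (List ℕ)) × (List ℕ × ℕ)) => egmStep k a)
    hm.range hstart hstep ?_
  obtain ⟨p, hp⟩ := hstart.sz_le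
  have hr : PolyTime (fun a : (ℕ × List (List ℕ)) × (List ℕ × ℕ) => List.range a.1.1) := hm.range
  obtain ⟨q, hq⟩ := hr.sz_le
  refine ⟨p + (Polynomial.X * (q + 1) + 10), fun a i hi => ?_⟩
  have e10 : ((10 : Polynomial ℕ)).eval (sz a) = 10 := Polynomial.eval_ofNat _ _
  rw [Polynomial.eval_add, Polynomial.eval_add, Polynomial.eval_mul, Polynomial.eval_add,
    Polynomial.eval_X, Polynomial.eval_one, e10]
  cases i with
  | zero =>
    rw [List.take_zero, List.foldl_nil]
    exact (hp a).trans (Nat.le_add_right _ _)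
  | succ i =>
    have hi' : i < (List.range a.1.1).length := hi
    rw [List.take_succ_eq_append_getElem hi', List.foldl_append, List.foldl_cons, List.foldl_nil]
    refine (sz_egmStep_le k a _ _).trans ?_
    have h1 : a.2.2 ≤ sz a := by
      have h2 : sz a = sz a.1 + sz a.2 + 1 := sz_pair a.1 a.2
      have h3 : sz a.2 = sz a.2.1 + sz a.2.2 + 1 := sz_pair a.2.1 a.2.2
      rw [h2, h3, sz_nat]
      omega
    have h3 := hq a
    have h4 : a.2.2 * (sz (List.range a.1.1) + 1) ≤ sz a * (q.eval (sz a) + 1) :=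
      Nat.mul_le_mul h1 (Nat.add_le_add_right h3 1)
    omega

theorem pt_egm (k : ℕ) :
    PolyTime (fun q : ℕ × List (List ℕ) × ℕ => egm k q.1 q.2.1 q.2.2) := by
  unfold egm
  have hm : PolyTime (fun q : ℕ × List (List ℕ) × ℕ => q.1) := PolyTime.id.fst
  have hH : PolyTime (fun q : ℕ × List (List ℕ) × ℕ => q.2.1.map (canM q.1)) :=
    PolyTime.map (f := fun (q : ℕ × List (List ℕ) × ℕ) (e : List ℕ) => canM q.1 e)
      PolyTime.id.snd.fst (pt_canM PolyTime.id.fst.fst PolyTime.id.snd)
  have hrun : PolyTime (fun q : ℕ × List (List ℕ) × ℕ =>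
      egmRun k ((q.1, q.2.1.map (canM q.1)), (ordH k q.1 (q.2.1.map (canM q.1)), q.2.2))) :=
    (pt_egmRun k).comp ((hm.pair hH).pair ((pt_ordH k hm hH).pair PolyTime.id.snd.snd))
  exact PolyTime.cond hrun.fst (hrun.snd.cons (PolyTime.const [])) (PolyTime.const [])

end Pool.Agent.CDM
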