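import Mathlib
import Pool.Agent.CDom.StmtDefs
import Pool.Agent.CDom.Prog
import Pool.Agent.CDom.Spec1
import Pool.Agent.CDom.Parse
import Pool.Agent.CDH.Stmt
import Pool.Agent.CDH.Prog
import Pool.Agent.CDH.Spec
import Pool.Agent.CDH.ProgB
import Pool.Agent.CDH.SpecB
import Pool.Agent.CDH.StepB
import Pool.Agent.CDM.DegS
import Pool.Agent.CDM.EgmP

/-!
# Project CDM: hypergraph dualization for degenerate hypergraphs, correctness
-/

set_option autoImplicit false

namespace Pool.Agent.CDM

open Finset Pool.Agent.CDom Pool.Agent.CDom.Prog Pool.Agent.CDH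

variable {m : ℕ}

/-- hyperedges inside `A` -/
def subE (H : List (Finset (Fin m))) (A : Finset (Fin m)) : List (Finset (Fin m)) :=
  H.filter fun e => decide (e ⊆ A)

theorem mem_subE {H : List (Finset (Fin m))} {A e : Finset (Fin m)} :
    e ∈ subE H A ↔ e ∈ H ∧ e ⊆ A := by
  unfold subE
  rw [List.mem_filter, decide_eq_true_eq]

theorem eIn_can (H : List (Finset (Fin m))) (A : List ℕ) :
    eIn (H.map can) A = (subE H (S m A)).map can := by
  unfold eIn subE
  rw [List.filter_map]
  congr 1
  refine List.filter_congr fun e _ => ?_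
  rw [Function.comp_apply, Bool.eq_iff_iff, decide_eq_true_eq, List.all_eq_true]
  constructor
  · intro h x hx
    have h1 := h x (mem_can.2 ⟨x.2, hx⟩)
    rw [mem_iff] at h1
    exact mem_S.2 h1
  · intro h x hx
    obtain ⟨h1, h2⟩ := mem_can.1 hx
    rw [mem_iff]
    exact mem_S.1 (h h2)

theorem hitsL_can (F : List (Finset (Fin m))) (T : List ℕ) :
    hitsL (F.map can) T = true ↔ IsTr F (S m T) := by
  unfold hitsL IsTr
  rw [List.all_eq_true]
  constructor
  · intro h e he
    have h1 := h (can e) (List.mem_map.2 ⟨e, he, rfl⟩)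
    rw [List.any_eq_true] at h1
    obtain ⟨x, hx, hxT⟩ := h1
    obtain ⟨hlt, hxe⟩ := mem_can.1 hx
    exact ⟨⟨x, hlt⟩, Finset.mem_inter.2 ⟨hxe, mem_S.2 (mem_iff.1 hxT)⟩⟩
  · rintro h e' he'
    obtain ⟨e, he, rfl⟩ := List.mem_map.1 he'
    obtain ⟨x, hx⟩ := h e he
    rw [Finset.mem_inter] at hx
    rw [List.any_eq_true]
    exact ⟨x, mem_can.2 ⟨x.2, hx.1⟩, mem_iff.2 (mem_S.1 hx.2)⟩

theorem isTr_mono {F : List (Finset (Fin m))} {T T' : Finset (Fin m)} (h : T ⊆ T')
    (hT : IsTr F T) : IsTr F T' := by
  intro e he
  obtain ⟨x, hx⟩ := hT e he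
  rw [Finset.mem_inter] at hx
  exact ⟨x, Finset.mem_inter.2 ⟨hx.1, h hx.2⟩⟩

theorem isMinTr_eq {F : List (Finset (Fin m))} {T T' : Finset (Fin m)} (h : IsMinTr F T)
    (hT' : IsTr F T') (hs : T' ⊆ T) : T' = T := by
  by_contra hne
  exact h.2 T' (Finset.ssubset_iff_subset_ne.2 ⟨hs, hne⟩) hT'

theorem exists_minTr {F : List (Finset (Fin m))} {T : Finset (Fin m)} (h : IsTr F T) :
    ∃ T' ⊆ T, IsMinTr F T' := by
  classical
  let X : Finset (Finset (Fin m)) := T.powerset.filter fun T' => IsTr F T'
  have hX : X.Nonempty := ⟨T, Finset.mem_filter.2 ⟨Finset.mem_powerset.2 (Finset.Subset.refl _), h⟩⟩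
  obtain ⟨T', hT', hmin⟩ := Finset.exists_min_image X Finset.card hX
  rw [Finset.mem_filter, Finset.mem_powerset] at hT'
  refine ⟨T', hT'.1, hT'.2, fun T'' hs hT'' => ?_⟩
  have h1 := hmin T'' (Finset.mem_filter.2 ⟨Finset.mem_powerset.2 (hs.1.trans hT'.1), hT''⟩)
  have h2 := Finset.card_lt_card hs
  omega

/-! ### greedy minimalisation -/

theorem greedyT_aux (F : List (Finset (Fin m))) : ∀ (L T : List ℕ), IsTr F (S m T) →
    IsTr F (S m (L.foldl (fun T' v => bif hitsL (F.map can) (del T' v) then del T' v else T') T)) ∧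
    S m (L.foldl (fun T' v => bif hitsL (F.map can) (del T' v) then del T' v else T') T) ⊆ S m T ∧
    ∀ v : Fin m, (v : ℕ) ∈ L →
      v ∈ S m (L.foldl (fun T' v => bif hitsL (F.map can) (del T' v) then del T' v else T') T) →
      ¬ IsTr F ((S m (L.foldl (fun T' v =>
        bif hitsL (F.map can) (del T' v) then del T' v else T') T)).erase v) := by
  intro L
  induction L with
  | nil =>
    intro T hT
    exact ⟨hT, Finset.Subset.refl _, fun v hv => absurd hv List.not_mem_nil⟩
  | cons a L ih =>
    intro T hT
    rw [List.foldl_cons]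
    have hdel : S m (del T a) ⊆ S m T := by
      intro x hx
      rw [mem_S, mem_del] at hx
      exact mem_S.2 hx.1
    cases hh : hitsL (F.map can) (del T a)
    · rw [cond_false]
      obtain ⟨h1, h2, h3⟩ := ih T hT
      refine ⟨h1, h2, fun v hv hvR => ?_⟩
      rw [List.mem_cons] at hv
      rcases hv with rfl | hv
      · intro hcon
        have h4 : IsTr F (S m (del T (v : ℕ))) := by
          rw [S_del]
          exact isTr_mono (Finset.erase_subset_erase _ h2) hcon
        rw [← hitsL_can, hh] at h4
        exact Bool.false_ne_true h4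
      · exact h3 v hv hvR
    · rw [cond_true]
      obtain ⟨h1, h2, h3⟩ := ih (del T a) ((hitsL_can F _).1 hh)
      refine ⟨h1, h2.trans hdel, fun v hv hvR => ?_⟩
      rw [List.mem_cons] at hv
      rcases hv with rfl | hv
      · have h4 := h2 hvR
        rw [S_del] at h4
        exact absurd h4 (Finset.notMem_erase _ _)
      · exact h3 v hv hvR

theorem greedyT_spec (F : List (Finset (Fin m))) (T : List ℕ) (hT : IsTr F (S m T)) :
    IsMinTr F (S m (greedyT (F.map can) T)) ∧ S m (greedyT (F.map can) T) ⊆ S m T := by
  obtain ⟨h1, h2, h3⟩ := greedyT_aux F T T hT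
  refine ⟨⟨h1, fun T' hs hT' => ?_⟩, h2⟩
  obtain ⟨v, hv, hvT'⟩ := Finset.exists_of_ssubset hs
  refine h3 v (mem_S.1 (h2 hv)) hv (isTr_mono ?_ hT')
  intro x hx
  rw [Finset.mem_erase]
  refine ⟨?_, hs.1 hx⟩
  rintro rfl
  exact hvT' hx

theorem canM_eq (T : List ℕ) : canM m T = can (S m T) := by
  unfold canM can
  refine List.filter_congr fun v hv => ?_
  have hv' : v < m := List.mem_range.1 hv
  rw [Bool.eq_iff_iff, decide_eq_true_eq, mem_iff]
  constructor
  · intro h
    exact ⟨hv', mem_S.2 h⟩
  · rintro ⟨_, h⟩
    exact mem_S.1 h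

/-! ### adding a vertex -/

theorem exists_ext {H : List (Finset (Fin m))} {A : Finset (Fin m)} {v : Fin m} (hv : v ∉ A)
    {T : Finset (Fin m)} (hT : IsMinTr (subE H A) T) :
    ∃ T', IsMinTr (subE H (insert v A)) T' ∧ T'.erase v = T := by
  have hins : IsTr (subE H (insert v A)) (insert v T) := by
    intro e he
    rw [mem_subE] at he
    by_cases hve : v ∈ e
    · exact ⟨v, Finset.mem_inter.2 ⟨hve, Finset.mem_insert_self _ _⟩⟩
    · have heA : e ⊆ A := fun x hx =>
        (Finset.mem_insert.1 (he.2 hx)).resolve_left fun h => hve (h ▸ hx)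
      obtain ⟨x, hx⟩ := hT.1 e (mem_subE.2 ⟨he.1, heA⟩)
      rw [Finset.mem_inter] at hx
      exact ⟨x, Finset.mem_inter.2 ⟨hx.1, Finset.mem_insert_of_mem hx.2⟩⟩
  obtain ⟨T', hs, hT'⟩ := exists_minTr hins
  refine ⟨T', hT', isMinTr_eq hT ?_ ?_⟩
  · intro e he
    rw [mem_subE] at he
    obtain ⟨x, hx⟩ := hT'.1 e (mem_subE.2 ⟨he.1, he.2.trans (Finset.subset_insert _ _)⟩)
    rw [Finset.mem_inter] at hx
    refine ⟨x, Finset.mem_inter.2 ⟨hx.1, Finset.mem_erase.2 ⟨?_, hx.2⟩⟩⟩
    rintro rfl
    exact hv (he.2 hx.1)
  · intro x hx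
    rw [Finset.mem_erase] at hx
    exact (Finset.mem_insert.1 (hs hx.2)).resolve_left hx.1

open Classical in
theorem card_tr_mono {H : List (Finset (Fin m))} {A : Finset (Fin m)} {v : Fin m} (hv : v ∉ A) :
    (univ.filter fun T => IsMinTr (subE H A) T).card ≤
      (univ.filter fun T => IsMinTr (subE H (insert v A)) T).card := by
  have hch : ∀ T, IsMinTr (subE H A) T →
      ∃ T', IsMinTr (subE H (insert v A)) T' ∧ T'.erase v = T := fun T hT => exists_ext hv hT
  choose! f hf using hch
  refine Finset.card_le_card_of_injOn f ?_ ?_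
  · intro T hT
    rw [Finset.mem_coe, Finset.mem_filter] at hT ⊢
    exact ⟨Finset.mem_univ _, (hf T hT.2).1⟩
  · intro T hT T' hT' e
    rw [Finset.mem_coe, Finset.mem_filter] at hT hT'
    rw [← (hf T hT.2).2, ← (hf T' hT'.2).2, e]

open Classical in
theorem exists_restr {k : ℕ} {H : List (Finset (Fin m))} {A : Finset (Fin m)} {v : Fin m}
    (hk : (H.toFinset.filter fun e => e ⊆ insert v A ∧ v ∈ e).card ≤ k) {T' : Finset (Fin m)}
    (hT' : IsMinTr (subE H (insert v A)) T') :
    ∃ T P, IsMinTr (subE H A) T ∧ P.card ≤ k ∧ T ∪ P = T' := by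
  have h1 : IsTr (subE H A) T' := by
    intro e he
    rw [mem_subE] at he
    exact hT'.1 e (mem_subE.2 ⟨he.1, he.2.trans (Finset.subset_insert _ _)⟩)
  obtain ⟨T, hs, hT⟩ := exists_minTr h1
  have hch : ∀ e, e ∈ subE H (insert v A) → ∃ x, x ∈ e ∧ x ∈ T' := by
    intro e he
    obtain ⟨x, hx⟩ := hT'.1 e he
    rw [Finset.mem_inter] at hx
    exact ⟨x, hx⟩
  have hne : Nonempty (Fin m) := ⟨v⟩
  choose! x hx using hch
  have hN : ∀ e ∈ H.toFinset.filter (fun e => e ⊆ insert v A ∧ v ∈ e),
      e ∈ subE H (insert v A) := by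
    intro e he
    rw [Finset.mem_filter, List.mem_toFinset] at he
    exact mem_subE.2 ⟨he.1, he.2.1⟩
  refine ⟨T, (H.toFinset.filter fun e => e ⊆ insert v A ∧ v ∈ e).image x, hT,
    Finset.card_image_le.trans hk, isMinTr_eq hT' ?_ ?_⟩
  · intro e he
    have he' := he
    rw [mem_subE] at he'
    by_cases hve : v ∈ e
    · refine ⟨x e, Finset.mem_inter.2 ⟨(hx e he).1, Finset.mem_union_right _ ?_⟩⟩
      refine Finset.mem_image.2 ⟨e, ?_, rfl⟩
      rw [Finset.mem_filter, List.mem_toFinset]
      exact ⟨he'.1, he'.2, hve⟩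
    · have heA : e ⊆ A := fun y hy =>
        (Finset.mem_insert.1 (he'.2 hy)).resolve_left fun h => hve (h ▸ hy)
      obtain ⟨y, hy⟩ := hT.1 e (mem_subE.2 ⟨he'.1, heA⟩)
      rw [Finset.mem_inter] at hy
      exact ⟨y, Finset.mem_inter.2 ⟨hy.1, Finset.mem_union_left _ hy.2⟩⟩
  · refine Finset.union_subset hs ?_
    intro y hy
    rw [Finset.mem_image] at hy
    obtain ⟨e, he, rfl⟩ := hy
    exact (hx e (hN e he)).2

open Classical in
theorem egmNew_spec {k : ℕ} {H : List (Finset (Fin m))} {A : Finset (Fin m)} {v : Fin m}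
    (hk : (H.toFinset.filter fun e => e ⊆ insert v A ∧ v ∈ e).card ≤ k)
    {l : List (Finset (Fin m))} (hl : ∀ T, T ∈ l ↔ IsMinTr (subE H A) T) :
    ∃ l' : List (Finset (Fin m)),
      egmNew k m ((subE H (insert v A)).map can) (l.map can) = l'.map can ∧ l'.Nodup ∧
        ∀ T, T ∈ l' ↔ IsMinTr (subE H (insert v A)) T := by
  unfold egmNew
  set F := subE H (insert v A) with hF
  set X := (((l.map can).flatMap fun T => (tuples m k).map fun P =>
    T ++ P.filter fun x => decide (x < m)).filter fun T => hitsL (F.map can) T) with hX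
  obtain ⟨l', h1, h2, h3⟩ := dedup_spec (X.map fun T => S m (greedyT (F.map can) T))
  refine ⟨l', ?_, h2, fun T' => ?_⟩
  · rw [← h1, List.map_map]
    congr 1
    exact List.map_congr_left fun T _ => canM_eq _
  · rw [h3, List.mem_map]
    constructor
    · rintro ⟨Z, hZ, rfl⟩
      rw [hX, List.mem_filter] at hZ
      exact (greedyT_spec F Z ((hitsL_can F Z).1 hZ.2)).1
    · intro hT'
      obtain ⟨T, P, hT, hP, hTP⟩ := exists_restr hk hT'
      obtain ⟨i, hi, hiP⟩ := exists_core k P hP
      have hZS : S m (can T ++ core m k i) = T' := by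
        rw [S_append, S_can, hiP, hTP]
      have hZT : IsTr F (S m (can T ++ core m k i)) := by
        rw [hZS]
        exact hT'.1
      refine ⟨can T ++ core m k i, ?_, ?_⟩
      · rw [hX, List.mem_filter]
        refine ⟨?_, (hitsL_can F _).2 hZT⟩
        rw [List.mem_flatMap]
        refine ⟨can T, List.mem_map.2 ⟨T, (hl T).2 hT, rfl⟩, ?_⟩
        rw [List.mem_map]
        refine ⟨(tuples m k).getD i [], ?_, rfl⟩
        rw [List.getD_eq_getElem _ _ hi]
        exact List.getElem_mem hi
      · obtain ⟨h4, h5⟩ := greedyT_spec F _ hZT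
        rw [hZS] at h5
        exact isMinTr_eq hT' h4.1 h5

/-! ### orders by picking -/

/-- a good order -/
def GoodOrdP {n : ℕ} (P : Finset (Fin n) → Fin n → Prop) (ord : List ℕ) : Prop :=
  ord.length = n ∧ ord.Nodup ∧ (∀ x ∈ ord, x < n) ∧
    ∀ (j : ℕ) (v : Fin n), j < n → ord.getD j 0 = (v : ℕ) → P (S n (ord.take (j + 1))) v

theorem card_S_nd {n : ℕ} {X : List ℕ} (hnd : X.Nodup) (hX : ∀ x ∈ X, x < n) :
    (S n X).card = X.length := by
  have e1 : (S n X).map Fin.valEmbedding = X.toFinset := by
    ext x
    rw [Finset.mem_map, List.mem_toFinset]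
    constructor
    · rintro ⟨y, hy, rfl⟩
      exact mem_S.1 hy
    · intro hx
      exact ⟨⟨x, hX x hx⟩, mem_S.2 hx, rfl⟩
  rw [← Finset.card_map Fin.valEmbedding, e1, List.toFinset_card_of_nodup hnd]

theorem S_cpl {n : ℕ} (Y : List ℕ) : S n (Prog.compl n Y) = (S n Y)ᶜ := by
  rw [compl_eq, S_can, Finset.compl_eq_univ_sdiff]

theorem iter_good {n : ℕ} {P : Finset (Fin n) → Fin n → Prop} {pick : List ℕ → ℕ}
    (hpick : ∀ A : List ℕ, (∀ x ∈ A, x < n) → (S n A).Nonempty →
      ∃ v : Fin n, pick A = (v : ℕ) ∧ v ∈ S n A ∧ P (S n A) v) :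
    GoodOrdP P ((fun acc => pick (Prog.compl n acc) :: acc)^[n] []) := by
  have key : ∀ i ≤ n, ((fun acc => pick (Prog.compl n acc) :: acc)^[i] []).length = i ∧
      ((fun acc => pick (Prog.compl n acc) :: acc)^[i] []).Nodup ∧
      (∀ x ∈ ((fun acc => pick (Prog.compl n acc) :: acc)^[i] []), x < n) ∧
      ∀ (j : ℕ) (v : Fin n), j < i →
        ((fun acc => pick (Prog.compl n acc) :: acc)^[i] []).getD j 0 = (v : ℕ) →
        P ((S n ((fun acc => pick (Prog.compl n acc) :: acc)^[i] []))ᶜ ∪
          S n (((fun acc => pick (Prog.compl n acc) :: acc)^[i] []).take (j + 1))) v := by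
    intro i
    induction i with
    | zero =>
      intro _
      refine ⟨rfl, List.nodup_nil, fun x hx => absurd hx List.not_mem_nil, fun j v hj => ?_⟩
      omega
    | succ i ih =>
      intro hi
      obtain ⟨h1, h2, h3, h4⟩ := ih (by omega)
      rw [Function.iterate_succ_apply']
      generalize ((fun acc => pick (Prog.compl n acc) :: acc)^[i] []) = acc at h1 h2 h3 h4
      have hlt : ∀ x ∈ Prog.compl n acc, x < n := by
        intro x hx
        unfold Prog.compl at hx
        rw [List.mem_filter, List.mem_range] at hx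
        exact hx.1
      have hcard : (S n acc).card = i := by rw [card_S_nd h2 h3, h1]
      have hne : ((S n acc)ᶜ).Nonempty := by
        rw [← Finset.card_pos, Finset.card_compl, Fintype.card_fin, hcard]
        omega
      obtain ⟨v, hv1, hv2, hv3⟩ := hpick (Prog.compl n acc) hlt (by rw [S_cpl]; exact hne)
      rw [S_cpl] at hv2 hv3
      have hvacc : v ∉ S n acc := Finset.mem_compl.1 hv2
      show ((pick (Prog.compl n acc) :: acc).length = i + 1 ∧
        (pick (Prog.compl n acc) :: acc).Nodup ∧
        (∀ x ∈ (pick (Prog.compl n acc) :: acc), x < n) ∧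
        ∀ (j : ℕ) (v : Fin n), j < i + 1 →
        (pick (Prog.compl n acc) :: acc).getD j 0 = (v : ℕ) →
        P ((S n (pick (Prog.compl n acc) :: acc))ᶜ ∪
          S n ((pick (Prog.compl n acc) :: acc).take (j + 1))) v)
      rw [hv1]
      have hScons : S n ((v : ℕ) :: acc) = insert v (S n acc) := S_cons v acc
      refine ⟨by rw [List.length_cons, h1], ?_, ?_, ?_⟩
      · rw [List.nodup_cons]
        exact ⟨fun h => hvacc (mem_S.2 h), h2⟩
      · intro x hx
        rw [List.mem_cons] at hx
        rcases hx with rfl | hx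
        · exact v.2
        · exact h3 x hx
      · intro j w hj hw
        cases j with
        | zero =>
          rw [List.getD_cons_zero] at hw
          have hwv : w = v := Fin.ext hw.symm
          rw [hwv, hScons, List.take_succ_cons, List.take_zero, S_cons, S_nil]
          have e : (insert v (S n acc))ᶜ ∪ insert v ∅ = (S n acc)ᶜ := by
            ext x
            rw [Finset.mem_union, Finset.mem_compl, Finset.mem_insert, not_or,
              Finset.mem_insert, Finset.mem_compl]
            constructor
            · rintro (h | h | h)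
              · exact h.2
              · rw [h]
                exact hvacc
              · exact absurd h (Finset.notMem_empty x)
            · intro h
              by_cases hxv : x = v
              · exact Or.inr (Or.inl hxv)
              · exact Or.inl ⟨hxv, h⟩
          rw [e]
          exact hv3
        | succ j =>
          rw [List.getD_cons_succ] at hw
          have h5 := h4 j w (by omega) hw
          rw [List.take_succ_cons, hScons, S_cons]
          have e : (insert v (S n acc))ᶜ ∪ insert v (S n (acc.take (j + 1))) =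
              (S n acc)ᶜ ∪ S n (acc.take (j + 1)) := by
            ext x
            rw [Finset.mem_union, Finset.mem_union, Finset.mem_compl, Finset.mem_insert,
              Finset.mem_insert, Finset.mem_compl]
            by_cases hxv : x = v
            · subst hxv
              constructor
              · exact fun _ => Or.inl hvacc
              · exact fun _ => Or.inr (Or.inl rfl)
            · constructor
              · rintro (h | h | h)
                · exact Or.inl fun h6 => h (Or.inr h6)
                · exact absurd h hxv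
                · exact Or.inr h
              · rintro (h | h)
                · refine Or.inl fun h6 => ?_
                  rcases h6 with h6 | h6
                  · exact hxv h6
                  · exact h h6
                · exact Or.inr (Or.inr h)
          rw [e]
          exact h5
  obtain ⟨h1, h2, h3, h4⟩ := key n le_rfl
  refine ⟨h1, h2, h3, fun j v hj hv => ?_⟩
  have h5 := h4 j v hj hv
  have hfull : S n ((fun acc => pick (Prog.compl n acc) :: acc)^[n] []) = univ := by
    apply Finset.eq_univ_of_card
    rw [Fintype.card_fin, card_S_nd h2 h3, h1]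
  rw [hfull, Finset.compl_univ, Finset.empty_union] at h5
  exact h5

theorem S_take_full {n : ℕ} {ord : List ℕ} (hlen : ord.length = n) (hnd : ord.Nodup)
    (hlt : ∀ x ∈ ord, x < n) : S n (ord.take n) = univ := by
  rw [List.take_of_length_le hlen.le]
  apply Finset.eq_univ_of_card
  rw [Fintype.card_fin, card_S_nd hnd hlt, hlen]

/-! ### the order for degenerate hypergraphs -/

open Classical in
theorem degH_spec (H : List (Finset (Fin m))) (A : List ℕ) (v : Fin m) :
    (dedup ((eIn (H.map can) A).filter fun e => mem (v : ℕ) e)).length =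
      (H.toFinset.filter fun e => e ⊆ S m A ∧ v ∈ e).card := by
  have h1 : ((eIn (H.map can) A).filter fun e => mem (v : ℕ) e) =
      ((subE H (S m A)).filter fun e => decide (v ∈ e)).map can := by
    rw [eIn_can, List.filter_map]
    congr 1
    refine List.filter_congr fun e _ => ?_
    rw [Function.comp_apply, Bool.eq_iff_iff, decide_eq_true_eq, mem_iff, mem_can]
    exact ⟨fun ⟨_, h⟩ => h, fun h => ⟨v.2, h⟩⟩
  rw [h1]
  obtain ⟨l', h2, h3, h4⟩ := dedup_spec ((subE H (S m A)).filter fun e => decide (v ∈ e))
  rw [h2, List.length_map, ← List.toFinset_card_of_nodup h3]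
  congr 1
  ext e
  rw [List.mem_toFinset, h4, List.mem_filter, mem_subE, decide_eq_true_eq, Finset.mem_filter,
    List.mem_toFinset]
  exact and_assoc

open Classical in
theorem ordH_good {k : ℕ} {H : List (Finset (Fin m))} (hH : Degen k H.toFinset) :
    GoodOrdP (fun A v => (H.toFinset.filter fun e => e ⊆ A ∧ v ∈ e).card ≤ k)
      (ordH k m (H.map can)) := by
  unfold ordH
  refine iter_good (pick := pickH k (H.map can)) fun A hA hne => ?_
  have hiff : ∀ v : Fin m, decide ((dedup ((eIn (H.map can) A).filter
      fun e => mem (v : ℕ) e)).length ≤ k) = true ↔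
      (H.toFinset.filter fun e => e ⊆ S m A ∧ v ∈ e).card ≤ k := by
    intro v
    rw [decide_eq_true_eq, degH_spec]
  obtain ⟨x, hx, hxk⟩ := hH (S m A) hne
  have hne' : (A.filter fun v => decide ((dedup ((eIn (H.map can) A).filter
      fun e => mem v e)).length ≤ k)) ≠ [] := by
    intro h
    have h1 : (x : ℕ) ∈ (A.filter fun v => decide ((dedup ((eIn (H.map can) A).filter
        fun e => mem v e)).length ≤ k)) :=
      List.mem_filter.2 ⟨mem_S.1 hx, (hiff x).2 hxk⟩
    rw [h] at h1
    exact absurd h1 List.not_mem_nil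
  have hmem : pickH k (H.map can) A ∈ (A.filter fun v => decide ((dedup
      ((eIn (H.map can) A).filter fun e => mem v e)).length ≤ k)) := by
    unfold pickH
    generalize (A.filter fun v => decide ((dedup ((eIn (H.map can) A).filter
      fun e => mem v e)).length ≤ k)) = L at hne'
    cases L with
    | nil => exact absurd rfl hne'
    | cons a L => exact List.mem_cons_self
  rw [List.mem_filter] at hmem
  have hlt := hA _ hmem.1
  exact ⟨⟨pickH k (H.map can) A, hlt⟩, rfl, mem_S.2 hmem.1, (hiff ⟨_, hlt⟩).1 hmem.2⟩

/-! ### the run -/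

theorem isMinTr_nil {T : Finset (Fin m)} : IsMinTr ([] : List (Finset (Fin m))) T ↔ T = ∅ := by
  constructor
  · intro h
    symm
    exact isMinTr_eq h (fun e he => absurd he List.not_mem_nil) (Finset.empty_subset _)
  · rintro rfl
    exact ⟨fun e he => absurd he List.not_mem_nil, fun T' hT' _ =>
      absurd hT' (Finset.not_ssubset_empty _)⟩

theorem can_empty : can (∅ : Finset (Fin m)) = [] := by
  rw [List.eq_nil_iff_forall_not_mem]
  intro x hx
  obtain ⟨_, h⟩ := mem_can.1 hx
  exact absurd h (Finset.notMem_empty _)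

open Classical in
theorem egmRun_spec {k : ℕ} {H : List (Finset (Fin m))} {ord : List ℕ}
    (hord : GoodOrdP (fun A v => (H.toFinset.filter fun e => e ⊆ A ∧ v ∈ e).card ≤ k) ord)
    (s : ℕ) :
    ((egmRun k ((m, H.map can), (ord, s))).1 = true → ∃ l : List (Finset (Fin m)), l.Nodup ∧
      (egmRun k ((m, H.map can), (ord, s))).2 = l.map can ∧ ∀ T, T ∈ l ↔ IsMinTr H T) ∧
    ((univ.filter fun T => IsMinTr H T).card ≤ s →
      (egmRun k ((m, H.map can), (ord, s))).1 = true) := by
  obtain ⟨hlen, hnd, hlt, hk⟩ := hord
  have hcardle : ∀ j ≤ m, (univ.filter fun T => IsMinTr (subE H (S m (ord.take j))) T).card ≤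
      (univ.filter fun T => IsMinTr H T).card := by
    intro j hj
    have h1 : ∀ i, j ≤ i → i ≤ m →
        (univ.filter fun T => IsMinTr (subE H (S m (ord.take j))) T).card ≤
        (univ.filter fun T => IsMinTr (subE H (S m (ord.take i))) T).card := by
      intro i hji
      induction i, hji using Nat.le_induction with
      | base => exact fun _ => le_rfl
      | succ i hji ih =>
        intro hi
        refine (ih (by omega)).trans ?_
        have hil : i < ord.length := by omega
        have hvn : ord.getD i 0 < m := by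
          rw [List.getD_eq_getElem _ _ hil]
          exact hlt _ (List.getElem_mem hil)
        have htake := take_succ_S (n := m) (v := ⟨ord.getD i 0, hvn⟩) hil rfl
        rw [htake]
        refine card_tr_mono ?_
        rw [mem_S]
        show ord.getD i 0 ∉ ord.take i
        rw [List.getD_eq_getElem _ _ hil]
        intro hmem
        obtain ⟨i', hi', he⟩ := List.getElem_of_mem hmem
        rw [List.length_take] at hi'
        rw [List.getElem_take] at he
        have h1 := (List.Nodup.getElem_inj_iff hnd).1 he
        omega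
    have h2 := h1 m hj le_rfl
    have h3 : subE H (S m (ord.take m)) = H := by
      rw [S_take_full hlen hnd hlt]
      unfold subE
      rw [List.filter_eq_self]
      intro e _
      rw [decide_eq_true_eq]
      exact Finset.subset_univ _
    rw [h3] at h2
    exact h2
  have key : ∀ j ≤ m,
      (((List.range j).foldl (egmStep k ((m, H.map can), (ord, s)))
        (egmStart (H.map can))).1 = true →
        ∃ l : List (Finset (Fin m)), l.Nodup ∧
        ((List.range j).foldl (egmStep k ((m, H.map can), (ord, s)))
          (egmStart (H.map can))).2 = l.map can ∧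
          ∀ T, T ∈ l ↔ IsMinTr (subE H (S m (ord.take j))) T) ∧
      ((univ.filter fun T => IsMinTr H T).card ≤ s →
        ((List.range j).foldl (egmStep k ((m, H.map can), (ord, s)))
          (egmStart (H.map can))).1 = true) := by
    intro j
    induction j with
    | zero =>
      intro _
      refine ⟨fun _ => ?_, fun _ => rfl⟩
      rw [List.range_zero, List.foldl_nil, List.take_zero, S_nil]
      unfold egmStart
      have he : eIn (H.map can) [] = (subE H ∅).map can := by
        rw [eIn_can, S_nil]
      rw [he]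
      cases hs : subE H ∅ with
      | nil =>
        refine ⟨[∅], List.nodup_singleton _, ?_, fun T => ?_⟩
        · show [[]] = [can (∅ : Finset (Fin m))]
          rw [can_empty]
        · rw [isMinTr_nil, List.mem_singleton]
      | cons e F =>
        refine ⟨[], List.nodup_nil, rfl, fun T => ?_⟩
        refine ⟨fun h => absurd h List.not_mem_nil, fun h => ?_⟩
        have h1 : e ∈ subE H ∅ := by
          rw [hs]
          exact List.mem_cons_self
        have h2 := (mem_subE.1 h1).2
        obtain ⟨x, hx⟩ := h.1 e List.mem_cons_self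
        rw [Finset.mem_inter] at hx
        exact absurd (h2 hx.1) (Finset.notMem_empty x)
    | succ j ih =>
      intro hj
      have hj' : j < m := hj
      obtain ⟨ih1, ih2⟩ := ih hj'.le
      rw [List.range_succ, List.foldl_append, List.foldl_cons, List.foldl_nil]
      generalize (List.range j).foldl (egmStep k ((m, H.map can), (ord, s)))
        (egmStart (H.map can)) = st at ih1 ih2
      obtain ⟨b, L⟩ := st
      simp only at ih1 ih2
      have hjl : j < ord.length := by omega
      have hvn : ord.getD j 0 < m := by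
        rw [List.getD_eq_getElem _ _ hjl]
        exact hlt _ (List.getElem_mem hjl)
      have htake := take_succ_S (n := m) (v := ⟨ord.getD j 0, hvn⟩) hjl rfl
      have hkj := hk j ⟨ord.getD j 0, hvn⟩ hj' rfl
      rw [htake] at hkj
      unfold egmStep
      simp only
      rw [eIn_can]
      cases hb : b with
      | false =>
        subst hb
        rw [Bool.false_and, cond_false]
        exact ⟨fun h => absurd h Bool.false_ne_true, fun h1 =>
          absurd (ih2 h1) Bool.false_ne_true⟩
      | true =>
        subst hb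
        obtain ⟨l, _, hl2, hl3⟩ := ih1 rfl
        subst hl2
        rw [Bool.true_and]
        obtain ⟨l', g1, g2, g3⟩ := egmNew_spec hkj hl3
        rw [← htake] at g1 g3
        refine ⟨fun h => ?_, fun h1 => ?_⟩
        · cases hc : decide ((egmNew k m ((subE H (S m (ord.take (j + 1)))).map can)
            (l.map can)).length ≤ s)
          · rw [hc, cond_false] at h
            exact absurd h Bool.false_ne_true
          · rw [cond_true]
            exact ⟨l', g2, g1, g3⟩
        · have hle : (egmNew k m ((subE H (S m (ord.take (j + 1)))).map can)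
              (l.map can)).length ≤ s := by
            rw [g1, List.length_map]
            refine le_trans ?_ h1
            refine le_trans ?_ (hcardle (j + 1) hj)
            rw [← List.toFinset_card_of_nodup g2]
            refine Finset.card_le_card fun T hT => ?_
            rw [List.mem_toFinset] at hT
            rw [Finset.mem_filter]
            exact ⟨Finset.mem_univ _, (g3 T).1 hT⟩
          rw [decide_eq_true hle, cond_true]
  obtain ⟨k1, k2⟩ := key m le_rfl
  refine ⟨fun h => ?_, k2⟩
  obtain ⟨l, h1, h2, h3⟩ := k1 h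
  refine ⟨l, h1, h2, fun T => ?_⟩
  have h4 : subE H (S m (ord.take m)) = H := by
    rw [S_take_full hlen hnd hlt]
    unfold subE
    rw [List.filter_eq_self]
    intro e _
    rw [decide_eq_true_eq]
    exact Finset.subset_univ _
  rw [h3, h4]

/-- runs with different budgets agree if they succeed -/
theorem egmRun_agree {k : ℕ} {H : List (List ℕ)} {ord : List ℕ} (s s' : ℕ)
    (h : (egmRun k ((m, H), (ord, s))).1 = true) (h' : (egmRun k ((m, H), (ord, s'))).1 = true) :
    egmRun k ((m, H), (ord, s)) = egmRun k ((m, H), (ord, s')) := by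
  have key : ∀ j, ((List.range j).foldl (egmStep k ((m, H), (ord, s))) (egmStart H)).1 = true →
      ((List.range j).foldl (egmStep k ((m, H), (ord, s'))) (egmStart H)).1 = true →
      (List.range j).foldl (egmStep k ((m, H), (ord, s))) (egmStart H) =
        (List.range j).foldl (egmStep k ((m, H), (ord, s'))) (egmStart H) := by
    intro j
    induction j with
    | zero => exact fun _ _ => rfl
    | succ j ih =>
      rw [List.range_succ, List.foldl_append, List.foldl_append, List.foldl_cons, List.foldl_nil,
        List.foldl_cons, List.foldl_nil]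
      have hstep : ∀ (t : ℕ) (st : Bool × List (List ℕ)),
          (egmStep k ((m, H), (ord, t)) st j).1 = true → st.1 = true ∧
            egmStep k ((m, H), (ord, t)) st j =
              (true, egmNew k m (eIn H (ord.take (j + 1))) st.2) := by
        intro t st hst
        unfold egmStep at hst ⊢
        simp only at hst ⊢
        cases hc : (st.1 && decide ((egmNew k m (eIn H (ord.take (j + 1))) st.2).length ≤ t))
        · rw [hc, cond_false] at hst
          exact absurd hst Bool.false_ne_true
        · rw [cond_true]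
          rw [Bool.and_eq_true] at hc
          exact ⟨hc.1, rfl⟩
      intro h1 h2
      obtain ⟨g1, g2⟩ := hstep s _ h1
      obtain ⟨g3, g4⟩ := hstep s' _ h2
      rw [g2, g4, ih g1 g3]
  exact key m h h'

open Classical in
/-- **specification** -/
theorem egm_spec {k : ℕ} (H : List (List ℕ)) (hH : Degen k (H.map (S m)).toFinset) :
    ∃ l : List (Finset (Fin m)), l.Nodup ∧ (∀ T, T ∈ l ↔ IsMinTr (H.map (S m)) T) ∧
      (∀ s, egm k m H s = [] ∨ egm k m H s = [l.map can]) ∧
      ∀ s, m + H.length + l.length ≤ s → egm k m H s = [l.map can] := by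
  have hmap : H.map (canM m) = (H.map (S m)).map can := by
    rw [List.map_map]
    exact List.map_congr_left fun e _ => canM_eq e
  have hord := ordH_good hH
  have hdef : ∀ s, egm k m H s =
      bif (egmRun k ((m, (H.map (S m)).map can), (ordH k m ((H.map (S m)).map can), s))).1 then
        [(egmRun k ((m, (H.map (S m)).map can), (ordH k m ((H.map (S m)).map can), s))).2]
      else [] := by
    intro s
    unfold egm
    rw [hmap]
  set s0 := (univ.filter fun T => IsMinTr (H.map (S m)) T).card with hs0
  have h0 := (egmRun_spec hord s0).2 le_rfl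
  obtain ⟨l, h1, h2, h3⟩ := (egmRun_spec hord s0).1 h0
  have hlen : l.length = s0 := by
    rw [hs0, ← List.toFinset_card_of_nodup h1]
    congr 1
    ext T
    rw [List.mem_toFinset, Finset.mem_filter, h3]
    exact ⟨fun h => ⟨Finset.mem_univ _, h⟩, fun h => h.2⟩
  have hsucc : ∀ s, (egmRun k ((m, (H.map (S m)).map can),
      (ordH k m ((H.map (S m)).map can), s))).1 = true → egm k m H s = [l.map can] := by
    intro s hs
    rw [hdef, hs, cond_true, egmRun_agree s s0 hs h0, h2]
  refine ⟨l, h1, h3, fun s => ?_, fun s hs => hsucc s ((egmRun_spec hord s).2 ?_)⟩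
  · cases hb : (egmRun k ((m, (H.map (S m)).map can),
      (ordH k m ((H.map (S m)).map can), s))).1
    · left
      rw [hdef, hb, cond_false]
    · exact Or.inr (hsucc s hb)
  · rw [← hs0, ← hlen]
    omega

end Pool.Agent.CDM
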