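import Mathlib
import Pool.Agent.CDM.Defs

/-!
# Project CDM, module Mader

If there is no complete minor on `h` branch sets each of which contains a vertex with property `R`,
then `RSparse G R (2 ^ h)`.

Proof (Mader).  Call a finite family `F : Finset (Finset V)` a model if its members are connected
(`CSet`), pairwise disjoint.  Let `P F` be the number of ordered pairs of different members joined
by an edge.

Claim (h ≥ 1): if `F` is a nonempty model and `(2 ^ h - 2) * F.card ≤ P F`, then there are
`B : Fin h → Finset V`, connected, pairwise disjoint, pairwise joined by an edge, each `B i`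
contains a member of `F` and is contained in the union of the members of `F`.

* `h = 1`: any member of `F`.
* `h → h + 1`: put `c = 2 ^ (h + 1) - 2 = 2 * (2 ^ h - 2) + 2`.  Among the nonempty models `F'`, all of
  whose members contain a member of `F` and lie in the union of `F`, and with `c * F'.card ≤ P F'`,
  take one with the smallest number of members.  `P F' ≥ c * F'.card > 0`, so there are two members
  `x`, `y` joined by an edge.  For EVERY `y` joined to `x`, with `t` common neighbours in `F'`,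
  replacing `x`, `y` by `x ∪ y` gives a nonempty model with one member less and
  `P = P F' - 2 - 2 * t`; minimality gives `P F' - 2 - 2 t < c * (F'.card - 1)`, so `2 + 2 t > c`,
  `t ≥ 2 ^ h - 2` (even `t > ...`).  So in the family `N` of the members joined to `x` every member
  has at least `2 ^ h - 2` neighbours, `P N ≥ (2 ^ h - 2) * N.card`, `N` is nonempty.  The claim for `h`
  and `N`, together with `x`, gives the claim for `h + 1` (each branch set contains a member of `N`,
  which is joined to `x`).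

For `h = 0` the hypothesis `hG` is false (empty family).  For an indexed family as in `RSparse`: if
`I` is empty, `pr = 0`; otherwise, if `pr > 2 ^ h * I.card`, apply the claim to `F = I.image B` (`B` is
injective on `I` since the sets are nonempty and disjoint).
-/

set_option autoImplicit false

namespace Pool.Agent.CDM

open Finset Pool.Agent.CDom

variable {V : Type} [Fintype V] [LinearOrder V] {G : SimpleGraph V}

open Classical in
/-- `1` if the sets are different and joined by an edge -/
private noncomputable def md_t (G : SimpleGraph V) (x y : Finset V) : ℕ :=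
  if x ≠ y ∧ Touch G x y then 1 else 0

/-- the number of ordered pairs of different members joined by an edge -/
private noncomputable def md_P (G : SimpleGraph V) (F : Finset (Finset V)) : ℕ :=
  ∑ x ∈ F, ∑ y ∈ F, md_t G x y

omit [Fintype V] [LinearOrder V] in
private theorem md_touch_symm {A B : Finset V} (h : Touch G A B) : Touch G B A := by
  obtain ⟨a, ha, b, hb, hab⟩ := h
  exact ⟨b, hb, a, ha, hab.symm⟩

private theorem md_t_symm (x y : Finset V) : md_t G x y = md_t G y x := by
  unfold md_t
  have h : (x ≠ y ∧ Touch G x y) ↔ (y ≠ x ∧ Touch G y x) :=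
    ⟨fun h => ⟨h.1.symm, md_touch_symm h.2⟩, fun h => ⟨h.1.symm, md_touch_symm h.2⟩⟩
  by_cases h1 : x ≠ y ∧ Touch G x y
  · rw [if_pos h1, if_pos (h.1 h1)]
  · rw [if_neg h1, if_neg (fun h2 => h1 (h.2 h2))]

omit [Fintype V] in
private theorem md_t_self (x : Finset V) : md_t G x x = 0 := by
  unfold md_t
  rw [if_neg (fun h => h.1 rfl)]

omit [Fintype V] in
private theorem md_t_le (x y : Finset V) : md_t G x y ≤ 1 := by
  unfold md_t
  split_ifs <;> omega

omit [Fintype V] in
private theorem md_t_one {x y : Finset V} (h : md_t G x y ≠ 0) : x ≠ y ∧ Touch G x y := by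
  by_contra h1
  apply h
  unfold md_t
  rw [if_neg h1]

omit [Fintype V] in
private theorem md_t_of {x y : Finset V} (h : x ≠ y) (h' : Touch G x y) : md_t G x y = 1 := by
  unfold md_t
  rw [if_pos ⟨h, h'⟩]

private theorem md_P_insert {z : Finset V} {F : Finset (Finset V)} (hz : z ∉ F) :
    md_P G (insert z F) = md_P G F + 2 * ∑ y ∈ F, md_t G z y := by
  unfold md_P
  rw [Finset.sum_insert hz]
  rw [Finset.sum_insert hz, md_t_self, zero_add]
  have h : ∀ x ∈ F, ∑ y ∈ insert z F, md_t G x y = md_t G z x + ∑ y ∈ F, md_t G x y := by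
    intro x _
    rw [Finset.sum_insert hz, md_t_symm]
  rw [Finset.sum_congr rfl h, Finset.sum_add_distrib]
  ring

/-- a family of disjoint connected sets -/
private def md_Model (G : SimpleGraph V) (F : Finset (Finset V)) : Prop :=
  (∀ A ∈ F, CSet G A) ∧ ∀ A ∈ F, ∀ B ∈ F, A ≠ B → Disjoint A B

private theorem md_cset_union {A B : Finset V} (hA : CSet G A) (hB : CSet G B)
    (hT : Touch G A B) : CSet G (A ∪ B) := by
  obtain ⟨a0, ha0, b0, hb0, hab⟩ := hT
  have hAB : A ⊆ A ∪ B := Finset.subset_union_left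
  have hBA : B ⊆ A ∪ B := Finset.subset_union_right
  refine ⟨hA.1.mono hAB, ?_⟩
  have key : ∀ a ∈ A, ∀ b ∈ B, Conn G (A ∪ B) a b := by
    intro a ha b hb
    have h1 : Conn G (A ∪ B) a a0 := conn_mono hAB (hA.2 a ha a0 ha0)
    have h2 : Conn G (A ∪ B) a0 b0 := conn_single hab (hBA hb0)
    have h3 : Conn G (A ∪ B) b0 b := conn_mono hBA (hB.2 b0 hb0 b hb)
    exact (h1.trans h2).trans h3
  intro a ha b hb
  rcases Finset.mem_union.1 ha with ha' | ha' <;> rcases Finset.mem_union.1 hb with hb' | hb'
  · exact conn_mono hAB (hA.2 a ha' b hb')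
  · exact key a ha' b hb'
  · exact conn_symm hb (key b hb' a ha')
  · exact conn_mono hBA (hB.2 a ha' b hb')

/-- contracting two members `x`, `y` which are joined by an edge -/
private theorem md_merge {F : Finset (Finset V)} (hF : md_Model G F) {x y : Finset V} (hx : x ∈ F)
    (hy : y ∈ F) (hxy : x ≠ y) (hT : Touch G x y) :
    ∃ F' : Finset (Finset V), md_Model G F' ∧ F'.card + 1 = F.card ∧ F'.Nonempty ∧
      (∀ A' ∈ F', ∃ A ∈ F, A ⊆ A') ∧ (∀ A' ∈ F', ∀ v ∈ A', ∃ A ∈ F, v ∈ A) ∧
      md_P G F ≤ md_P G F' + 2 + 2 * ∑ a ∈ F, md_t G x a * md_t G y a := by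
  classical
  set F0 := (F.erase x).erase y with hF0
  have hy' : y ∈ F.erase x := Finset.mem_erase.2 ⟨hxy.symm, hy⟩
  have hyF0 : y ∉ F0 := Finset.notMem_erase _ _
  have hFe : F.erase x = insert y F0 := (Finset.insert_erase hy').symm
  have hFF : F = insert x (insert y F0) := by
    rw [← hFe]
    exact (Finset.insert_erase hx).symm
  have hxF0 : x ∉ insert y F0 := by
    rw [← hFe]
    exact Finset.notMem_erase _ _
  have hmem0 : ∀ a ∈ F0, a ∈ F ∧ a ≠ x ∧ a ≠ y := by
    intro a ha
    rw [hF0, Finset.mem_erase, Finset.mem_erase] at ha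
    exact ⟨ha.2.2, ha.2.1, ha.1⟩
  have hdis : ∀ a ∈ F0, Disjoint (x ∪ y) a := by
    intro a ha
    obtain ⟨h1, h2, h3⟩ := hmem0 a ha
    rw [Finset.disjoint_union_left]
    exact ⟨hF.2 x hx a h1 h2.symm, hF.2 y hy a h1 h3.symm⟩
  have hzc := md_cset_union (hF.1 x hx) (hF.1 y hy) hT
  have hz : x ∪ y ∉ F0 := by
    intro h
    have h1 := hdis _ h
    rw [Finset.disjoint_self_iff_empty] at h1
    rw [h1] at hzc
    exact Finset.not_nonempty_empty hzc.1
  refine ⟨insert (x ∪ y) F0, ⟨?_, ?_⟩, ?_, Finset.insert_nonempty _ _, ?_, ?_, ?_⟩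
  · intro A hA
    rcases Finset.mem_insert.1 hA with rfl | hA
    · exact hzc
    · exact hF.1 A (hmem0 A hA).1
  · intro A hA B hB hAB
    rcases Finset.mem_insert.1 hA with rfl | hA
    · rcases Finset.mem_insert.1 hB with rfl | hB
      · exact absurd rfl hAB
      · exact hdis B hB
    · rcases Finset.mem_insert.1 hB with rfl | hB
      · exact (hdis A hA).symm
      · exact hF.2 A (hmem0 A hA).1 B (hmem0 B hB).1 hAB
  · rw [Finset.card_insert_of_notMem hz, hFF, Finset.card_insert_of_notMem hxF0,
      Finset.card_insert_of_notMem hyF0]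
  · intro A' hA'
    rcases Finset.mem_insert.1 hA' with rfl | hA'
    · exact ⟨x, hx, Finset.subset_union_left⟩
    · exact ⟨A', (hmem0 A' hA').1, Finset.Subset.refl _⟩
  · intro A' hA' v hv
    rcases Finset.mem_insert.1 hA' with rfl | hA'
    · rcases Finset.mem_union.1 hv with hv | hv
      · exact ⟨x, hx, hv⟩
      · exact ⟨y, hy, hv⟩
    · exact ⟨A', (hmem0 A' hA').1, hv⟩
  · have h1 : md_P G F = md_P G F0 + 2 * ∑ a ∈ F0, md_t G y a +
        2 * (1 + ∑ a ∈ F0, md_t G x a) := by
      rw [hFF, md_P_insert hxF0, md_P_insert hyF0, Finset.sum_insert hyF0, md_t_of hxy hT]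
    have h2 : md_P G (insert (x ∪ y) F0) = md_P G F0 + 2 * ∑ a ∈ F0, md_t G (x ∪ y) a :=
      md_P_insert hz
    have h3 : ∑ a ∈ F0, md_t G x a + ∑ a ∈ F0, md_t G y a ≤
        ∑ a ∈ F0, md_t G (x ∪ y) a + ∑ a ∈ F0, md_t G x a * md_t G y a := by
      rw [← Finset.sum_add_distrib, ← Finset.sum_add_distrib]
      apply Finset.sum_le_sum
      intro a ha
      have hne : x ∪ y ≠ a := fun h => hz (h ▸ ha)
      have h4 := md_t_le (G := G) x a
      have h5 := md_t_le (G := G) y a
      by_cases hxa : md_t G x a = 0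
      · by_cases hya : md_t G y a = 0
        · rw [hxa, hya]
          omega
        · have h6 : md_t G (x ∪ y) a = 1 := by
            obtain ⟨-, b, hb, c, hc, hbc⟩ := md_t_one hya
            exact md_t_of hne ⟨b, Finset.mem_union_right _ hb, c, hc, hbc⟩
          rw [hxa, h6]
          omega
      · have h6 : md_t G (x ∪ y) a = 1 := by
          obtain ⟨-, b, hb, c, hc, hbc⟩ := md_t_one hxa
          exact md_t_of hne ⟨b, Finset.mem_union_left _ hb, c, hc, hbc⟩
        have h7 : md_t G x a = 1 := by omega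
        rw [h6, h7]
        omega
    have h4 : ∑ a ∈ F0, md_t G x a * md_t G y a ≤ ∑ a ∈ F, md_t G x a * md_t G y a := by
      apply Finset.sum_le_sum_of_subset
      intro a ha
      exact (hmem0 a ha).1
    omega

private theorem md_claim (h : ℕ) : ∀ F : Finset (Finset V), F.Nonempty → md_Model G F →
    (2 ^ (h + 1) - 2) * F.card ≤ md_P G F →
    ∃ B : Fin (h + 1) → Finset V, (∀ i, CSet G (B i)) ∧
      (∀ i j, i ≠ j → Disjoint (B i) (B j) ∧ Touch G (B i) (B j)) ∧
      (∀ i, ∃ A ∈ F, A ⊆ B i) ∧ ∀ i, ∀ v ∈ B i, ∃ A ∈ F, v ∈ A := by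
  classical
  induction h with
  | zero =>
    intro F hne hF _
    obtain ⟨A, hA⟩ := hne
    refine ⟨fun _ => A, fun _ => hF.1 A hA, ?_, fun _ => ⟨A, hA, Finset.Subset.refl _⟩,
      fun _ v hv => ⟨A, hA, hv⟩⟩
    intro i j hij
    exact absurd (Fin.ext (by have := i.isLt; have := j.isLt; omega)) hij
  | succ h ih =>
    intro F hne hF hP
    -- admissible families
    let Q : Finset (Finset V) → Prop := fun F' => F'.Nonempty ∧ md_Model G F' ∧
      (∀ A' ∈ F', ∃ A ∈ F, A ⊆ A') ∧ (∀ A' ∈ F', ∀ v ∈ A', ∃ A ∈ F, v ∈ A) ∧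
      (2 ^ (h + 1 + 1) - 2) * F'.card ≤ md_P G F'
    have hQF : Q F := ⟨hne, hF, fun A hA => ⟨A, hA, Finset.Subset.refl _⟩,
      fun A hA v hv => ⟨A, hA, hv⟩, hP⟩
    obtain ⟨F', hF'mem, hmin⟩ := Finset.exists_min_image
      ((univ : Finset (Finset (Finset V))).filter Q) Finset.card ⟨F, by
        rw [Finset.mem_filter]
        exact ⟨Finset.mem_univ _, hQF⟩⟩
    obtain ⟨-, hne', hF', hsub, hun, hP'⟩ := Finset.mem_filter.1 hF'mem
    have hpow : 2 ^ (h + 1 + 1) - 2 = 2 * (2 ^ (h + 1) - 2) + 2 := by
      have h1 : 2 ≤ 2 ^ (h + 1) := by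
        calc 2 = 2 ^ 1 := (pow_one 2).symm
          _ ≤ 2 ^ (h + 1) := Nat.pow_le_pow_right (by norm_num) (by omega)
      rw [pow_succ 2 (h + 1)]
      omega
    set c := 2 ^ (h + 1) - 2 with hc
    rw [hpow] at hP'
    have hcard : 0 < F'.card := hne'.card_pos
    -- every edge of the model has many triangles
    have htri : ∀ x ∈ F', ∀ y ∈ F', md_t G x y ≠ 0 →
        c ≤ ∑ a ∈ F', md_t G x a * md_t G y a := by
      intro x hx y hy hxy
      obtain ⟨hxy1, hxy2⟩ := md_t_one hxy
      obtain ⟨F'', h1, h2, h3, h4, h5, h6⟩ := md_merge hF' hx hy hxy1 hxy2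
      have h7 : ¬ Q F'' := by
        intro h7
        have := hmin F'' (by
          rw [Finset.mem_filter]
          exact ⟨Finset.mem_univ _, h7⟩)
        omega
      have h8 : ¬ (2 ^ (h + 1 + 1) - 2) * F''.card ≤ md_P G F'' := by
        intro h8
        apply h7
        refine ⟨h3, h1, ?_, ?_, h8⟩
        · intro A' hA'
          obtain ⟨A1, hA1, hA2⟩ := h4 A' hA'
          obtain ⟨A, hA, hA3⟩ := hsub A1 hA1
          exact ⟨A, hA, hA3.trans hA2⟩
        · intro A' hA' v hv
          obtain ⟨A1, hA1, hA2⟩ := h5 A' hA' v hv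
          exact hun A1 hA1 v hA2
      rw [hpow] at h8
      have h9 : (2 * c + 2) * F'.card = (2 * c + 2) * F''.card + (2 * c + 2) := by
        rw [← h2]
        ring
      omega
    -- a member with a neighbour
    obtain ⟨x, hx, y0, hy0, hxy0⟩ : ∃ x ∈ F', ∃ y ∈ F', md_t G x y ≠ 0 := by
      by_contra hcon
      push Not at hcon
      have h1 : md_P G F' = 0 := by
        unfold md_P
        apply Finset.sum_eq_zero
        intro x hx
        apply Finset.sum_eq_zero
        intro y hy
        exact hcon x hx y hy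
      rw [h1] at hP'
      have h2 : 0 < (2 * c + 2) * F'.card := Nat.mul_pos (by omega) hcard
      omega
    set N := F'.filter (fun y => md_t G x y ≠ 0) with hN
    have hNmem : ∀ y ∈ N, y ∈ F' ∧ md_t G x y ≠ 0 := fun y hy => Finset.mem_filter.1 hy
    have hNmodel : md_Model G N :=
      ⟨fun A hA => hF'.1 A (hNmem A hA).1,
        fun A hA B hB => hF'.2 A (hNmem A hA).1 B (hNmem B hB).1⟩
    have hNne : N.Nonempty := ⟨y0, Finset.mem_filter.2 ⟨hy0, hxy0⟩⟩
    have hNP : c * N.card ≤ md_P G N := by
      unfold md_P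
      rw [mul_comm, ← smul_eq_mul]
      apply Finset.card_nsmul_le_sum
      intro y hy
      obtain ⟨hy1, hy2⟩ := hNmem y hy
      refine (htri x hx y hy1 hy2).trans (le_of_eq ?_)
      rw [hN, Finset.sum_filter]
      apply Finset.sum_congr rfl
      intro a _
      by_cases hxa : md_t G x a = 0
      · rw [hxa, zero_mul, if_neg (by simp)]
      · have h1 := md_t_le (G := G) x a
        have h2 : md_t G x a = 1 := by omega
        rw [if_pos hxa, h2, one_mul]
    obtain ⟨B, hB1, hB2, hB3, hB4⟩ := ih N hNne hNmodel hNP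
    have hxB : ∀ i, Disjoint x (B i) ∧ Touch G x (B i) := by
      intro i
      constructor
      · rw [Finset.disjoint_left]
        intro v hv hv'
        obtain ⟨A, hA, hvA⟩ := hB4 i v hv'
        obtain ⟨hA1, hA2⟩ := hNmem A hA
        have h1 := hF'.2 x hx A hA1 (md_t_one hA2).1
        exact (Finset.disjoint_left.1 h1) hv hvA
      · obtain ⟨A, hA, hAB⟩ := hB3 i
        obtain ⟨-, a, ha, b, hb, hab⟩ := md_t_one (hNmem A hA).2
        exact ⟨a, ha, b, hAB hb, hab⟩
    refine ⟨Fin.cons x B, ?_, ?_, ?_, ?_⟩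
    · intro i
      refine Fin.cases ?_ ?_ i
      · exact hF'.1 x hx
      · exact hB1
    · intro i j
      refine Fin.cases ?_ ?_ i
      · refine Fin.cases ?_ ?_ j
        · intro h1
          exact absurd rfl h1
        · intro j' _
          exact hxB j'
      · intro i'
        refine Fin.cases ?_ ?_ j
        · intro _
          exact ⟨(hxB i').1.symm, md_touch_symm (hxB i').2⟩
        · intro j' h1
          exact hB2 i' j' (fun h2 => h1 (by rw [h2]))
    · intro i
      refine Fin.cases ?_ ?_ i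
      · exact hsub x hx
      · intro i'
        obtain ⟨A, hA, hAB⟩ := hB3 i'
        obtain ⟨A1, hA1, hA2⟩ := hsub A (hNmem A hA).1
        exact ⟨A1, hA1, hA2.trans hAB⟩
    · intro i
      refine Fin.cases ?_ ?_ i
      · exact hun x hx
      · intro i' v hv
        obtain ⟨A, hA, hvA⟩ := hB4 i' v hv
        exact hun A (hNmem A hA).1 v hvA

theorem mader (R : V → Prop) (h : ℕ)
    (hG : ¬ ∃ B : Fin h → Finset V, (∀ i, CSet G (B i) ∧ ∃ v ∈ B i, R v) ∧
      ∀ i j, i ≠ j → Disjoint (B i) (B j) ∧ Touch G (B i) (B j)) :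
    RSparse G R (2 ^ h) := by
  classical
  intro ι I B hB hdis
  by_contra hcon
  push Not at hcon
  rcases Nat.eq_zero_or_pos h with rfl | hpos
  · apply hG
    exact ⟨fun i => i.elim0, fun i => i.elim0, fun i => i.elim0⟩
  obtain ⟨h', rfl⟩ : ∃ h', h = h' + 1 := ⟨h - 1, by omega⟩
  have hinj : Set.InjOn B (I : Set ι) := by
    intro i hi j hj hij
    by_contra hne
    have h1 := hdis i hi j hj hne
    rw [hij, Finset.disjoint_self_iff_empty] at h1
    have h2 := (hB j hj).1.1
    rw [h1] at h2
    exact Finset.not_nonempty_empty h2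
  have hP : pr G I B ≤ md_P G (I.image B) := by
    have h1 : md_P G (I.image B) =
        (((I.image B) ×ˢ (I.image B)).filter fun p => p.1 ≠ p.2 ∧ Touch G p.1 p.2).card := by
      unfold md_P
      rw [← Finset.sum_product', Finset.card_filter]
      rfl
    rw [h1]
    unfold pr
    apply Finset.card_le_card_of_injOn (fun p => (B p.1, B p.2))
    · intro p hp
      rw [mem_coe, Finset.mem_filter, Finset.mem_product] at hp
      rw [mem_coe, Finset.mem_filter, Finset.mem_product]
      refine ⟨⟨Finset.mem_image_of_mem _ hp.1.1, Finset.mem_image_of_mem _ hp.1.2⟩, ?_, hp.2.2⟩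
      intro h2
      exact hp.2.1 (hinj hp.1.1 hp.1.2 h2)
    · intro p hp q hq hpq
      rw [mem_coe, Finset.mem_filter, Finset.mem_product] at hp hq
      have h2 := congrArg Prod.fst hpq
      have h3 := congrArg Prod.snd hpq
      exact Prod.ext (hinj hp.1.1 hq.1.1 h2) (hinj hp.1.2 hq.1.2 h3)
  have hne : I.Nonempty := by
    by_contra hemp
    rw [Finset.not_nonempty_iff_eq_empty] at hemp
    subst hemp
    simp [pr] at hcon
  have hcard : (I.image B).card = I.card := Finset.card_image_of_injOn hinj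
  obtain ⟨B', h1, h2, h3, -⟩ := md_claim (G := G) h' (I.image B) (hne.image B)
    ⟨by
      intro A hA
      obtain ⟨i, hi, rfl⟩ := Finset.mem_image.1 hA
      exact (hB i hi).1, by
      intro A hA A' hA' hAA
      obtain ⟨i, hi, rfl⟩ := Finset.mem_image.1 hA
      obtain ⟨j, hj, rfl⟩ := Finset.mem_image.1 hA'
      exact hdis i hi j hj (fun h4 => hAA (by rw [h4]))⟩
    (by
      rw [hcard]
      refine le_trans ?_ (hcon.le.trans hP)
      exact Nat.mul_le_mul_right _ (Nat.sub_le _ _))
  apply hG
  refine ⟨B', fun i => ⟨h1 i, ?_⟩, h2⟩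
  obtain ⟨A, hA, hAB⟩ := h3 i
  obtain ⟨j, hj, rfl⟩ := Finset.mem_image.1 hA
  obtain ⟨v, hv, hR⟩ := (hB j hj).2
  exact ⟨v, hAB hv, hR⟩

end Pool.Agent.CDM
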