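import Mathlib
import Pool.Agent.CDom.Defs
import Pool.Agent.CDom.Basic
import Pool.Agent.CDom.Prog
import Pool.Agent.CDom.Spec1
import Pool.Agent.CDH.Stmt
import Pool.Agent.CDH.Prog
import Pool.Agent.CDH.Spec
import Pool.Agent.CDH.Star
import Pool.Agent.CDH.MinO
import Pool.Agent.CDH.ProgB
import Pool.Agent.CDH.SpecB
import Pool.Agent.CDH.StepB

/-!
# Project CDM: correctness of the enumeration algorithm with an oracle for special hypergraphs

The same as `CDH/StepB.lean`, but the oracle need only work for the hypergraphs with property `Good`.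
-/

set_option autoImplicit false

namespace Pool.Agent.CDM

open Finset Pool.Agent.CDom Pool.Agent.CDom.Prog Pool.Agent.CDH

variable {n : ℕ} {G : SimpleGraph (Fin n)} {E : List (ℕ × ℕ)}

/-- specification of the oracle -/
def HDSpecOn (Good : ℕ → List (List ℕ) → Prop)
    (hd : ℕ → List (List ℕ) → ℕ → List (List (List ℕ))) (bd : ℕ → ℕ) : Prop :=
  ∀ (m : ℕ) (H : List (List ℕ)), Good m H → ∃ l : List (Finset (Fin m)), l.Nodup ∧
    (∀ T, T ∈ l ↔ IsMinTr (H.map (S m)) T) ∧
    (∀ s, hd m H s = [] ∨ hd m H s = [l.map can]) ∧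
    ∀ s, bd (m + H.length + l.length) ≤ s → hd m H s = [l.map can]

section

variable {hd : ℕ → List (List ℕ) → ℕ → List (List (List ℕ))} {bd : ℕ → ℕ}
  {Good : ℕ → List (List ℕ) → Prop}

theorem newL_specC (hE : IsRep G E) (hhd : HDSpecOn Good hd bd)
    (hgood : ∀ (O Z : List ℕ) (h : ℕ), (∀ z ∈ Z, z < n) → h ∈ Z → Good n (cl (n, E) O Z h)) {d : ℕ} {O : List ℕ} {v : Fin n}
    (hv : (v : ℕ) ∉ O) (hns : NoStar G d (S n O) v) {l : List (Finset (Fin n))}
    (hl : ∀ D, D ∈ l ↔ MinO G (S n O) D) {s : ℕ}
    (hok : okAll hd (3 * d) (n, E) O (v : ℕ) s (l.map can) = true) :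
    ∃ l' : List (Finset (Fin n)), newL hd (3 * d) (n, E) O (v : ℕ) s (l.map can) = l'.map can ∧
      l'.Nodup ∧ ∀ D, D ∈ l' ↔ MinO G (insert v (S n O)) D := by
  have hvS : v ∉ S n O := fun h => hv (mem_S.1 h)
  have hSins : S n ((v : ℕ) :: O) = insert v (S n O) := S_cons v O
  have hcomp : (insert v (S n O))ᶜ ⊆ (S n O)ᶜ := compl_insert_subset _ _
  unfold newL
  obtain ⟨l', h1, h2, h3⟩ := dedup_spec ((((l.map can).flatMap fun D =>
    cands1 hd (3 * d) (n, E) O (v : ℕ) s D)).map fun Z => S n (greedyO (n, E) ((v : ℕ) :: O) Z))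
  refine ⟨l', ?_, h2, fun D' => ?_⟩
  · rw [← h1, List.map_map]
    congr 1
    exact List.map_congr_left fun Z _ => canon_eq _
  · rw [h3, List.mem_map]
    have hokD : ∀ D ∈ l, ∀ q ∈ zh (3 * d) (n, E) (v : ℕ) (can D),
        hd n (cl (n, E) O q.1 q.2) s ≠ [] := by
      intro D hD q hq
      unfold okAll at hok
      rw [List.all_eq_true] at hok
      have h4 := hok (can D) (List.mem_map.2 ⟨D, hD, rfl⟩)
      rw [List.all_eq_true] at h4
      have h5 := h4 q hq
      rw [Bool.not_eq_true', List.isEmpty_eq_false_iff] at h5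
      exact h5
    constructor
    · rintro ⟨Z, hZ, rfl⟩
      rw [List.mem_flatMap] at hZ
      obtain ⟨D, hD, hZ⟩ := hZ
      rw [List.mem_map] at hD
      obtain ⟨D, hD, rfl⟩ := hD
      have hDM := (hl D).1 hD
      unfold cands1 at hZ
      rw [List.mem_cons] at hZ
      have key : (∀ x ∈ Z, x < n) ∧ CDS G (S n Z) ∧ (insert v (S n O))ᶜ ⊆ S n Z := by
        rcases hZ with rfl | hZ
        · refine ⟨fun x hx => mem_can_lt hx, ?_, ?_⟩
          · rw [S_can]
            exact hDM.1
          · rw [S_can]
            exact hcomp.trans hDM.2.1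
        · rw [List.mem_flatMap] at hZ
          obtain ⟨q, hq, hZ⟩ := hZ
          rw [List.mem_flatMap] at hZ
          obtain ⟨lY, hlY, hZ⟩ := hZ
          rw [List.mem_map] at hZ
          obtain ⟨Y, hY, rfl⟩ := hZ
          obtain ⟨hq1, hq2, hq3, hq4⟩ := zh_prop hq (fun x hx => mem_can_lt hx)
          rw [S_can] at hq4
          have hq2n : q.2 < n := hq1 _ hq2
          obtain ⟨lT, g1, g2, g3, _⟩ := hhd n (cl (n, E) O q.1 q.2) (hgood O q.1 q.2 hq1 hq2)
          have h6 : hd n (cl (n, E) O q.1 q.2) s = [lT.map can] :=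
            (g3 s).resolve_left (hokD D hD q hq)
          have hlY' : lY ∈ hd n (cl (n, E) O q.1 q.2) s := hlY
          rw [h6, List.mem_singleton] at hlY'
          subst hlY'
          rw [List.mem_map] at hY
          obtain ⟨T, hT, rfl⟩ := hY
          rw [g2] at hT
          have hT' : IsMinTr ((cl (n, E) O q.1 ((⟨q.2, hq2n⟩ : Fin n) : ℕ)).map (S n)) T := hT
          rw [isMinTr_cl hE O q.1 hq1] at hT'
          have hh : (⟨q.2, hq2n⟩ : Fin n) ∈ S n q.1 := mem_S.2 hq2
          have hOZ : (insert v (S n O))ᶜ ⊆ S n q.1 := by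
            intro x hx
            refine hq4 ?_
            rw [Finset.mem_erase]
            refine ⟨?_, hDM.2.1 (hcomp hx)⟩
            rw [Finset.mem_compl, Finset.mem_insert, not_or] at hx
            exact hx.1
          refine ⟨?_, ?_, ?_⟩
          · intro x hx
            rw [List.mem_append] at hx
            rcases hx with hx | hx
            · exact hq1 x hx
            · exact mem_can_lt hx
          · rw [S_append, S_can]
            exact hT'.1.cds hh (minMeets_PH hT'.1 hT'.2)
          · rw [S_append]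
            exact hOZ.trans Finset.subset_union_left
      have h7 := (greedyO_spec hE ((v : ℕ) :: O) Z key.1 key.2.1 (by
        rw [hSins]
        exact key.2.2)).1
      rw [hSins] at h7
      exact h7
    · intro hD'
      -- it suffices to find a candidate list for `D'`
      have hfin : ∀ Z : List ℕ, (∀ x ∈ Z, x < n) → S n Z = D' →
          S n (greedyO (n, E) ((v : ℕ) :: O) Z) = D' := by
        intro Z hZ hZD
        obtain ⟨h7, h8⟩ := greedyO_spec hE ((v : ℕ) :: O) Z hZ (by rw [hZD]; exact hD'.1) (by
          rw [hSins, hZD]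
          exact hD'.2.1)
        rw [hZD] at h8
        rw [hSins] at h7
        exact hD'.eq_of_subset h7.1 h7.2.1 h8
      by_cases hvD : v ∈ D'
      · have h4 := hD'.of_insert_mem hvD
        refine ⟨can D', ?_, hfin _ (fun x hx => mem_can_lt hx) (S_can D')⟩
        rw [List.mem_flatMap]
        refine ⟨can D', List.mem_map.2 ⟨D', (hl D').2 h4, rfl⟩, ?_⟩
        unfold cands1
        exact List.mem_cons_self
      · have hins : CDS G (insert v D') := hD'.1.mono (Finset.subset_insert _ _)
        have hOi : (S n O)ᶜ ⊆ insert v D' := by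
          intro x hx
          rw [Finset.mem_insert]
          by_cases hxv : x = v
          · exact Or.inl hxv
          · refine Or.inr (hD'.2.1 ?_)
            rw [Finset.mem_compl] at hx
            rw [Finset.mem_compl, Finset.mem_insert, not_or]
            exact ⟨hxv, hx⟩
        obtain ⟨D, hDs, hDM⟩ := exists_minO hins hOi
        obtain ⟨C, hC1, hC2, h, hh, hC3⟩ := hub_exists hvS hDM hD' hvD hDs hns
        have hSn : (S n (can D)).erase v ∪ C = D.erase v ∪ C := by rw [S_can]
        obtain ⟨Zl, hZl, hZS⟩ := exists_zh (E := E) (3 * d) v (can D) C hC2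
          (fun h => hvD (hC1 h)) h (by rw [hSn]; exact hh)
        rw [hSn] at hZS
        have hZsub : D.erase v ∪ C ⊆ D' := by
          intro x hx
          rw [Finset.mem_union, Finset.mem_erase] at hx
          rcases hx with hx | hx
          · exact (Finset.mem_insert.1 (hDs hx.2)).resolve_left hx.1
          · exact hC1 hx
        have hOZ : (insert v (S n O))ᶜ ⊆ D.erase v ∪ C := by
          intro x hx
          rw [Finset.mem_union, Finset.mem_erase]
          left
          refine ⟨?_, hDM.2.1 (hcomp hx)⟩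
          rw [Finset.mem_compl, Finset.mem_insert, not_or] at hx
          exact hx.1
        have hmin := minMeets_of_minO hh hD' hZsub hOZ hC3
        have hDl : D ∈ l := (hl D).2 hDM
        obtain ⟨hq1, hq2, _, _⟩ := zh_prop hZl (fun x hx => mem_can_lt hx)
        obtain ⟨lT, g1, g2, g3, _⟩ := hhd n (cl (n, E) O Zl (h : ℕ))
          (hgood O Zl (h : ℕ) hq1 hq2)
        have h6 : hd n (cl (n, E) O Zl (h : ℕ)) s = [lT.map can] :=
          (g3 s).resolve_left (hokD D hDl (Zl, (h : ℕ)) hZl)
        have hT : D' \ (D.erase v ∪ C) ∈ lT := by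
          rw [g2, isMinTr_cl hE O Zl hq1, hZS]
          exact hmin
        refine ⟨Zl ++ can (D' \ (D.erase v ∪ C)), ?_, hfin _ ?_ ?_⟩
        · rw [List.mem_flatMap]
          refine ⟨can D, List.mem_map.2 ⟨D, hDl, rfl⟩, ?_⟩
          unfold cands1
          refine List.mem_cons_of_mem _ ?_
          rw [List.mem_flatMap]
          refine ⟨(Zl, (h : ℕ)), hZl, ?_⟩
          show _ ∈ List.flatMap _ (hd n (cl (n, E) O Zl (h : ℕ)) s)
          rw [h6, List.flatMap_cons, List.flatMap_nil, List.append_nil, List.mem_map]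
          exact ⟨_, List.mem_map.2 ⟨_, hT, rfl⟩, rfl⟩
        · intro x hx
          rw [List.mem_append] at hx
          rcases hx with hx | hx
          · exact hq1 x hx
          · exact mem_can_lt hx
        · rw [S_append, S_can, hZS]
          exact Finset.union_sdiff_of_subset hZsub

open Classical in
/-- with a large budget all calls succeed -/
theorem okAll_trueC (hE : IsRep G E) (hhd : HDSpecOn Good hd bd)
    (hgood : ∀ (O Z : List ℕ) (h : ℕ), (∀ z ∈ Z, z < n) → h ∈ Z → Good n (cl (n, E) O Z h)) (hbd : Monotone bd) {k : ℕ}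
    {O : List ℕ} {v : Fin n} {l : List (Finset (Fin n))}
    (hl : ∀ D ∈ l, MinO G (S n O) D) {s : ℕ}
    (hs : bd (3 * n + k + (univ.filter fun D => MinCDS G D).card) ≤ s) :
    okAll hd k (n, E) O (v : ℕ) s (l.map can) = true := by
  unfold okAll
  rw [List.all_eq_true]
  intro D hD
  rw [List.mem_map] at hD
  obtain ⟨D, hD, rfl⟩ := hD
  have hDM := hl D hD
  rw [List.all_eq_true]
  intro q hq
  obtain ⟨hq1, hq2, hq3, hq4⟩ := zh_prop hq (fun x hx => mem_can_lt hx)
  rw [S_can] at hq4
  have hq2n : q.2 < n := hq1 _ hq2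
  obtain ⟨lT, g1, g2, _, g4⟩ := hhd n (cl (n, E) O q.1 q.2) (hgood O q.1 q.2 hq1 hq2)
  have hcomp : (insert v (S n O))ᶜ ⊆ (S n O)ᶜ := compl_insert_subset _ _
  have hOZ : (insert v (S n O))ᶜ ⊆ S n q.1 := by
    intro x hx
    refine hq4 ?_
    rw [Finset.mem_erase]
    refine ⟨?_, hDM.2.1 (hcomp hx)⟩
    rw [Finset.mem_compl, Finset.mem_insert, not_or] at hx
    exact hx.1
  have hh : (⟨q.2, hq2n⟩ : Fin n) ∈ S n q.1 := mem_S.2 hq2
  have hlen : lT.length ≤ (univ.filter fun D => MinCDS G D).card := by
    refine (card_minMeets hh hOZ g1 ?_).trans (card_minO G _)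
    intro T hT
    rw [g2] at hT
    exact (isMinTr_cl hE O q.1 hq1 ⟨q.2, hq2n⟩ T).1 hT
  have hcl : (cl (n, E) O q.1 q.2).length ≤ q.1.length + n := length_cl O q.1 q.2
  have hz := zh_length hq
  have hcD := length_can_le D
  have h7 : bd (n + (cl (n, E) O q.1 q.2).length + lT.length) ≤ s := by
    refine (hbd ?_).trans hs
    omega
  rw [Bool.not_eq_true', List.isEmpty_eq_false_iff]
  show hd n (cl (n, E) O q.1 q.2) s ≠ []
  rw [g4 s h7]
  exact List.cons_ne_nil _ _

/-! ### the whole run -/

open Classical in
theorem runB_specC (hE : IsRep G E) (hhd : HDSpecOn Good hd bd)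
    (hgood : ∀ (O Z : List ℕ) (h : ℕ), (∀ z ∈ Z, z < n) → h ∈ Z → Good n (cl (n, E) O Z h)) (hbd : Monotone bd) {d : ℕ}
    {ord : List ℕ} (hord : GoodOrd G d ord) (s : ℕ) :
    ((runB hd (3 * d) (((n, E), ord), s)).1 = true → ∃ l : List (Finset (Fin n)), l.Nodup ∧
      (runB hd (3 * d) (((n, E), ord), s)).2 = l.map can ∧ ∀ D, D ∈ l ↔ MinCDS G D) ∧
    (bd (3 * n + 3 * d + (univ.filter fun D => MinCDS G D).card) ≤ s →
      (univ.filter fun D => MinCDS G D).card ≤ s →
      (runB hd (3 * d) (((n, E), ord), s)).1 = true) := by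
  obtain ⟨hlen, hnd, hlt, hns⟩ := hord
  have key : ∀ j ≤ n,
      (((List.range j).foldl (stepB hd (3 * d) (((n, E), ord), s)) (startB (n, E))).1 = true →
        ∃ l : List (Finset (Fin n)), l.Nodup ∧
        ((List.range j).foldl (stepB hd (3 * d) (((n, E), ord), s)) (startB (n, E))).2 =
          l.map can ∧ ∀ D, D ∈ l ↔ MinO G (S n (ord.take j)) D) ∧
      (bd (3 * n + 3 * d + (univ.filter fun D => MinCDS G D).card) ≤ s →
        (univ.filter fun D => MinCDS G D).card ≤ s →
        ((List.range j).foldl (stepB hd (3 * d) (((n, E), ord), s)) (startB (n, E))).1 =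
          true) := by
    intro j
    induction j with
    | zero =>
      intro _
      refine ⟨fun _ => ?_, fun _ _ => rfl⟩
      rw [List.range_zero, List.foldl_nil, List.take_zero, S_nil]
      unfold startB
      have hr : ∀ x ∈ List.range n, x < n := fun x hx => List.mem_range.1 hx
      have hSr : S n (List.range n) = univ := by
        ext x
        rw [mem_S, List.mem_range]
        exact ⟨fun _ => Finset.mem_univ _, fun _ => x.2⟩
      have hcan : List.range n = can (univ : Finset (Fin n)) := by
        unfold can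
        symm
        rw [List.filter_eq_self]
        intro x hx
        rw [decide_eq_true_eq]
        exact ⟨List.mem_range.1 hx, Finset.mem_univ _⟩
      cases h : cds (n, E) (List.range n)
      · refine ⟨[], List.nodup_nil, ?_, fun D => ?_⟩
        · rfl
        · rw [minO_empty]
          refine ⟨fun h1 => absurd h1 List.not_mem_nil, fun h1 => ?_⟩
          have h2 := (cds_spec hE _ hr).2 (by rw [hSr]; exact h1.2)
          rw [h] at h2
          exact absurd h2 Bool.false_ne_true
      · refine ⟨[univ], List.nodup_singleton _, ?_, fun D => ?_⟩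
        · simp only
          rw [cond_true, List.map_cons, List.map_nil, ← hcan]
        · rw [minO_empty, List.mem_singleton]
          have h2 := (cds_spec hE _ hr).1 h
          rw [hSr] at h2
          exact ⟨fun h1 => ⟨h1, h2⟩, fun h1 => h1.1⟩
    | succ j ih =>
      intro hj
      have hj' : j < n := hj
      obtain ⟨ih1, ih2⟩ := ih hj'.le
      rw [List.range_succ, List.foldl_append, List.foldl_cons, List.foldl_nil]
      generalize (List.range j).foldl (stepB hd (3 * d) (((n, E), ord), s)) (startB (n, E)) = st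
        at ih1 ih2
      obtain ⟨b, L⟩ := st
      simp only at ih1 ih2
      -- the vertex
      have hjl : j < ord.length := by rw [hlen]; exact hj'
      have hvn : ord.getD j 0 < n := by
        rw [List.getD_eq_getElem _ _ hjl]
        exact hlt _ (List.getElem_mem hjl)
      set v : Fin n := ⟨ord.getD j 0, hvn⟩ with hvdef
      have hv : ord.getD j 0 = (v : ℕ) := rfl
      have hvO : (v : ℕ) ∉ ord.take j := by
        rw [← hv, List.getD_eq_getElem _ _ hjl]
        intro hmem
        obtain ⟨i, hi, he⟩ := List.getElem_of_mem hmem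
        rw [List.length_take] at hi
        rw [List.getElem_take] at he
        have h1 := (List.Nodup.getElem_inj_iff hnd).1 he
        omega
      have hnsj := hns j v hj' hv
      have htake := take_succ_S (n := n) hjl hv
      unfold stepB
      simp only
      rw [hv]
      cases hb : b with
      | false =>
        subst hb
        rw [Bool.false_and, cond_false]
        refine ⟨fun h => absurd h Bool.false_ne_true, fun h1 h2 => ?_⟩
        exact absurd (ih2 h1 h2) Bool.false_ne_true
      | true =>
        subst hb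
        obtain ⟨l, hl1, hl2, hl3⟩ := ih1 rfl
        subst hl2
        rw [Bool.true_and]
        refine ⟨fun h => ?_, fun h1 h2 => ?_⟩
        · cases hc : (okAll hd (3 * d) (n, E) (ord.take j) (v : ℕ) s (l.map can) &&
            decide ((newL hd (3 * d) (n, E) (ord.take j) (v : ℕ) s (l.map can)).length ≤ s))
          · rw [hc, cond_false] at h
            exact absurd h Bool.false_ne_true
          · rw [cond_true]
            rw [Bool.and_eq_true] at hc
            obtain ⟨l', g1, g2, g3⟩ := newL_specC hE hhd hgood hvO hnsj hl3 hc.1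
            refine ⟨l', g2, g1, fun D => ?_⟩
            rw [htake]
            exact g3 D
        · have hok : okAll hd (3 * d) (n, E) (ord.take j) (v : ℕ) s (l.map can) = true :=
            okAll_trueC hE hhd hgood hbd (fun D hD => (hl3 D).1 hD) h1
          obtain ⟨l', g1, g2, g3⟩ := newL_specC hE hhd hgood hvO hnsj hl3 hok
          have hle : (newL hd (3 * d) (n, E) (ord.take j) (v : ℕ) s (l.map can)).length ≤ s := by
            rw [g1, List.length_map]
            refine le_trans ?_ h2
            refine (length_le_card g2 (fun D => MinO G (insert v (S n (ord.take j))) D)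
              (fun D hD => (g3 D).1 hD)).trans ?_
            exact card_minO G _
          rw [hok, Bool.true_and, decide_eq_true hle, cond_true]
  obtain ⟨k1, k2⟩ := key n le_rfl
  have hfull : S n (ord.take n) = univ := by
    rw [List.take_of_length_le hlen.le]
    apply Finset.eq_univ_of_card
    rw [Fintype.card_fin]
    have e1 : (S n ord).map Fin.valEmbedding = ord.toFinset := by
      ext x
      rw [Finset.mem_map, List.mem_toFinset]
      constructor
      · rintro ⟨y, hy, rfl⟩
        exact mem_S.1 hy
      · intro hx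
        exact ⟨⟨x, hlt x hx⟩, mem_S.2 hx, rfl⟩
    rw [← Finset.card_map Fin.valEmbedding, e1, List.toFinset_card_of_nodup hnd, hlen]
  refine ⟨fun h => ?_, k2⟩
  obtain ⟨l, h1, h2, h3⟩ := k1 h
  refine ⟨l, h1, h2, fun D => ?_⟩
  rw [h3, hfull, minO_univ]

end

end Pool.Agent.CDM
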