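import Mathlib

/-!
# Definition for the third statement (MP_6e88d0_lc)

`BigMinor h Δ G`: `G` has a complete minor with `h` branch sets (connected, pairwise disjoint and
pairwise adjacent vertex sets), each of which contains a vertex of degree more than `Δ`.
-/

set_option autoImplicit false

namespace Pool.Agent.CDM

/-- complete minor on `h` branch sets, each with a vertex of degree more than `Δ` -/
def BigMinor (h Δ : ℕ) {n : ℕ} (G : SimpleGraph (Fin n)) : Prop :=
  ∃ B : Fin h → Finset (Fin n),
    (∀ i, (G.induce (B i : Set (Fin n))).Connected ∧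
      ∃ v ∈ B i, Δ < (G.neighborSet v).ncard) ∧
    ∀ i j, i ≠ j → Disjoint (B i) (B j) ∧ ∃ a ∈ B i, ∃ b ∈ B j, G.Adj a b

end Pool.Agent.CDM
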