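import Mathlib
import Pool.Agent.Lib.PolyTime.Lib
import Pool.Agent.CDom.StmtDefs
import Pool.Agent.CDom.Prog
import Pool.Agent.CDom.Spec1
import Pool.Agent.CDom.Parse
import Pool.Agent.CDom.Final
import Pool.Agent.CDH.Stmt
import Pool.Agent.CDH.StmtB
import Pool.Agent.CDH.Mach
import Pool.Agent.CDH.ProgB
import Pool.Agent.CDH.SpecB
import Pool.Agent.CDH.Order
import Pool.Agent.CDH.Core
import Pool.Agent.CDH.FinalB
import Pool.Agent.CDM.StmtC
import Pool.Agent.CDM.Mader
import Pool.Agent.CDM.StarL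
import Pool.Agent.CDM.DegS
import Pool.Agent.CDM.EgmP
import Pool.Agent.CDM.EgmS
import Pool.Agent.CDM.StepC

/-!
# Project CDM: assembly
-/

set_option autoImplicit false

namespace Pool.Agent.CDM

open Finset Pool.Agent.Lib.PT Pool.Agent.CDom Pool.Agent.CDom.Prog Pool.Agent.CDH

variable {n : ℕ} {G : SimpleGraph (Fin n)} {E : List (ℕ × ℕ)}

/-! ### the hypothesis -/

theorem cset_iff {V : Type} [Fintype V] [LinearOrder V] {G : SimpleGraph V} {B : Finset V} :
    CSet G B ↔ (G.induce (B : Set V)).Connected := by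
  constructor
  · intro h
    have hne : Nonempty (B : Set V) := by
      obtain ⟨x, hx⟩ := h.1
      exact ⟨⟨x, hx⟩⟩
    rw [SimpleGraph.connected_iff]
    refine ⟨?_, hne⟩
    rintro ⟨a, ha⟩ ⟨b, hb⟩
    have key : ∀ c, Conn G B a c → ∀ hc : c ∈ (B : Set V),
        (G.induce (B : Set V)).Reachable ⟨a, ha⟩ ⟨c, hc⟩ := by
      intro c hc
      unfold Conn at hc
      induction hc with
      | refl => intro _; exact SimpleGraph.Reachable.refl _
      | tail hxy hyz ih =>
        rename_i y z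
        intro hz
        have hy : y ∈ B := conn_mem ha hxy
        have h1 : (G.induce (B : Set V)).Adj ⟨y, hy⟩ ⟨z, hz⟩ := hyz.1
        exact (ih hy).trans h1.reachable
    exact key b (h.2 a ha b hb) hb
  · intro h2
    have hne : B.Nonempty := by
      obtain ⟨x⟩ := h2.nonempty
      exact ⟨x.1, x.2⟩
    refine ⟨hne, ?_⟩
    intro a ha b hb
    have h3 : (G.induce (B : Set V)).Reachable ⟨a, ha⟩ ⟨b, hb⟩ := h2.preconnected _ _
    rw [SimpleGraph.reachable_iff_reflTransGen] at h3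
    exact Relation.ReflTransGen.lift (p := fun x y => G.Adj x y ∧ y ∈ B)
      (fun x : (B : Set V) => x.1)
      (fun x y hxy => ⟨hxy, y.2⟩) _ _ h3

open Classical in
theorem ncard_eq (v : Fin n) : (G.neighborSet v).ncard = (univ.filter fun u => G.Adj v u).card := by
  have e : G.neighborSet v = ((univ.filter fun u => G.Adj v u : Finset (Fin n)) : Set (Fin n)) := by
    ext u
    rw [SimpleGraph.mem_neighborSet, Finset.mem_coe, Finset.mem_filter]
    exact ⟨fun h => ⟨Finset.mem_univ _, h⟩, fun h => h.2⟩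
  rw [e, Set.ncard_coe_finset]

open Classical in
theorem rsparse_of {h Δ : ℕ} (hG : ¬ BigMinor h Δ G) :
    RSparse G (fun v => Δ < (univ.filter fun u => G.Adj v u).card) (2 ^ h) := by
  refine mader _ h fun hcon => hG ?_
  obtain ⟨B, h1, h2⟩ := hcon
  refine ⟨B, fun i => ?_, fun i j hij => h2 i j hij⟩
  obtain ⟨h3, v, hv, h4⟩ := h1 i
  refine ⟨cset_iff.1 h3, v, hv, ?_⟩
  rw [ncard_eq]
  exact h4

/-! ### the clause hypergraphs -/

open Classical in
theorem good_cl (hE : IsRep G E) {c Δ : ℕ}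
    (hG : RSparse G (fun v => Δ < (univ.filter fun u => G.Adj v u).card) c)
    (O Z : List ℕ) (h : ℕ) (hZ : ∀ z ∈ Z, z < n) (hh : h ∈ Z) :
    Degen (lowB c Δ) ((cl (n, E) O Z h).map (S n)).toFinset := by
  have hhn := hZ h hh
  refine degen_sets hG (O := S n O) (Z := S n Z) (h := ⟨h, hhn⟩) (mem_S.2 hh) _ ?_
  intro e he
  rw [List.mem_toFinset, List.mem_map] at he
  obtain ⟨e', he', rfl⟩ := he
  unfold cl clK clU at he'
  rw [List.mem_append] at he'
  rcases he' with he' | he'
  · left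
    rw [List.mem_map] at he'
    obtain ⟨w, hw, rfl⟩ := he'
    rw [List.mem_filter, Bool.not_eq_true', Bool.eq_false_iff, ne_eq, mem_iff] at hw
    have hwn := hZ w hw.1
    refine ⟨⟨w, hwn⟩, mem_S.2 hw.1, fun h3 =>
      hw.2 ((reach_spec hE Z ⟨h, hhn⟩ ⟨w, hwn⟩).2 h3), fun x => ?_⟩
    rw [mem_S, List.mem_filter, List.any_eq_true]
    have hp := ph_spec hE O Z ⟨h, hhn⟩ (x : ℕ)
    simp only at hp
    rw [hp]
    constructor
    · rintro ⟨⟨_, h1⟩, a, ha, hax⟩
      have han := reach_lt Z ⟨w, hwn⟩ a ha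
      exact ⟨h1, ⟨a, han⟩, (reach_spec hE Z ⟨w, hwn⟩ ⟨a, han⟩).1 ha, (hE ⟨a, han⟩ x).1 hax⟩
    · rintro ⟨h1, a, ha, hax⟩
      exact ⟨⟨x.2, h1⟩, a, (reach_spec hE Z ⟨w, hwn⟩ a).2 ha, (hE a x).2 hax⟩
  · right
    rw [List.mem_map] at he'
    obtain ⟨u, hu, rfl⟩ := he'
    obtain ⟨hun, hu'⟩ := (und_spec hE Z hZ u).1 hu
    refine ⟨⟨u, hun⟩, hu', fun x => ?_⟩
    rw [mem_S, List.mem_filter]
    have hp := ph_spec hE O Z ⟨h, hhn⟩ (x : ℕ)
    simp only at hp
    rw [hp]
    constructor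
    · rintro ⟨⟨_, h1⟩, hax⟩
      exact ⟨h1, (hE x ⟨u, hun⟩).1 hax⟩
    · rintro ⟨h1, hax⟩
      exact ⟨⟨x.2, h1⟩, (hE x ⟨u, hun⟩).2 hax⟩

open Classical in
theorem egm_on (k : ℕ) : HDSpecOn (fun m H => Degen k (H.map (S m)).toFinset) (egm k)
    (fun t => t) := fun _ H hH => egm_spec H hH

/-! ### the theorem -/

open Classical in
theorem mcds_minor (h Δ : ℕ) : MCDSOutPoly fun _ G => ¬ BigMinor h Δ G := by
  set d : ℕ := lowB (2 ^ h) Δ + 1 with hd
  set k : ℕ := lowB (2 ^ h) Δ with hk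
  let X : Polynomial ℕ := Polynomial.X
  let R : Polynomial ℕ := 3 * X + Polynomial.C (3 * d)
  have hR : ∀ u, R.eval u = 3 * u + 3 * d := by
    intro u
    have e3 : ((3 : Polynomial ℕ)).eval u = 3 := Polynomial.eval_ofNat _ _
    simp only [R, X, Polynomial.eval_add, Polynomial.eval_mul, Polynomial.eval_X,
      Polynomial.eval_C, e3]
  obtain ⟨c, hc⟩ := poly_lt_two_pow R
  obtain ⟨T, i, o, p, hT⟩ := machine_of_search (pt_fB d (pt_egm k))
    (N := fun w => c * ((toGr (decM w)).1 + 1))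
    (PolyTime.mul (PolyTime.const c) ((pt_toGr.comp pt_decM).fst.succ))
  refine ⟨T, i, o, p.comp (100 * (X + 1) ^ 2 + R), fun n G hG => ?_⟩
  have hsp := rsparse_of hG
  obtain ⟨E, hE, hgr⟩ := toGr_matG G
  have hord : GoodOrd G d (ordG d (n, E)) :=
    ordG_good hE d (fun O hO => exists_noStar_low hsp hO)
  have hgood : ∀ (O Z : List ℕ) (h : ℕ), (∀ z ∈ Z, z < n) → h ∈ Z →
      Degen k ((cl (n, E) O Z h).map (S n)).toFinset :=
    fun O Z h hZ hh => good_cl hE hsp O Z h hZ hh
  have hspec := fun t => runB_specC (Good := fun m H => Degen k (H.map (S m)).toFinset)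
    hE (egm_on k) hgood (fun a b hab => hab) hord t
  set Nc : ℕ := (univ.filter fun D => MinCDS G D).card with hNc
  have hNc2 : Nc ≤ 2 ^ n := by
    rw [hNc]
    refine (Finset.card_le_univ _).trans ?_
    rw [Fintype.card_finset, Fintype.card_fin]
  have hfB : ∀ s, fB (egm k) d (encM (matG G)) s =
      (mainB (egm k) (3 * d) (((n, E), ordG d (n, E)), s)).map fun L => printL n L := by
    intro s
    unfold fB
    rw [decM_encM, hgr]
  have hmain : ∀ s, mainB (egm k) (3 * d) (((n, E), ordG d (n, E)), s) =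
      bif (runB (egm k) (3 * d) (((n, E), ordG d (n, E)), s)).1 then
        [(runB (egm k) (3 * d) (((n, E), ordG d (n, E)), s)).2] else [] := fun s => rfl
  obtain ⟨w', ⟨l, hl1, hl2, hl3⟩, hout⟩ := hT (encM (matG G)) (R.eval (n + Nc))
    (fun w' => ∃ l : List (Finset (Fin n)), l.Nodup ∧ (∀ D, D ∈ l ↔ IsMinCDS G D) ∧
      w' = encM (l.map matS))
    (by
      intro t ht
      rw [hR] at ht
      have h1 : (runB (egm k) (3 * d) (((n, E), ordG d (n, E)), t)).1 = true := by
        exact (hspec t).2 (by omega) (by omega)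
      rw [hfB, hmain, h1, cond_true]
      exact List.cons_ne_nil _ _)
    (by
      rw [decM_encM, hgr]
      exact hc n Nc hNc2)
    (by
      intro t ht
      rw [hfB, hmain] at ht ⊢
      cases hb : (runB (egm k) (3 * d) (((n, E), ordG d (n, E)), t)).1
      · rw [hb, cond_false] at ht
        exact absurd rfl ht
      · rw [cond_true, List.map_cons, List.map_nil]
        obtain ⟨l, h1, h2, h3⟩ := (hspec t).1 hb
        refine ⟨_, rfl, l, h1, fun D => (h3 D).trans (isMinCDS_iff G D).symm, ?_⟩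
        rw [h2, printL_spec])
  refine ⟨l, hl1, hl2, ?_⟩
  rw [hl3] at hout
  refine hout.mono ?_
  have hlen : Nc ≤ l.length := by
    rw [hNc, ← List.toFinset_card_of_nodup hl1]
    refine Finset.card_le_card fun D hD => ?_
    rw [Finset.mem_filter] at hD
    rw [List.mem_toFinset, hl2, isMinCDS_iff]
    exact hD.2
  rw [Polynomial.eval_comp]
  refine poly_mono p ?_
  have hsz := sz_enc_le G []
  rw [List.map_nil, List.append_nil, List.length_nil] at hsz
  have e100 : ((100 : Polynomial ℕ)).eval (n + l.length) = 100 := Polynomial.eval_ofNat _ _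
  have hev : (100 * (X + 1) ^ 2 + R).eval (n + l.length) =
      100 * (n + l.length + 1) ^ 2 + R.eval (n + l.length) := by
    rw [Polynomial.eval_add, Polynomial.eval_mul, Polynomial.eval_pow, Polynomial.eval_add,
      Polynomial.eval_X, Polynomial.eval_one, e100]
  rw [hev]
  refine Nat.add_le_add (hsz.trans ?_) (poly_mono R (Nat.add_le_add_left hlen n))
  exact Nat.mul_le_mul_left _ (Nat.pow_le_pow_left (by omega) 2)

end Pool.Agent.CDM
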