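import Mathlib
import Pool.Agent.CDM.Defs
import Pool.Agent.CDM.Low
import Pool.Agent.CDH.Star

/-!
# Project CDM, module StarL: a vertex without large star

`NoStar G d O v` (CDH/Star.lean): there is no `X ⊆ O` with `d` members, pairwise nonadjacent, each
adjacent to `v` or to a component of the graph induced by the complement of `insert v O` which is
adjacent to `v` and to no other member of `X`.

Proof.  Here `O = Q.erase v`, `insert v O = Q`.  For `a ∉ Q` let `cmp a` be the set of the vertices
`b` with `Conn G Qᶜ a b` (a subset of `Qᶜ`): a connected set, two of these sets are equal or disjoint.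
Let `I : Finset (Finset V)` be the set of all `nbW G Q (cmp a)`, `a ∉ Q` (the types), and for a type
`τ` let `K τ = cmp a` for a chosen `a` of this type.  Then `exists_low` (with `W = Q`, `ι = Finset V`)
applies and gives `v ∈ Q`.  Suppose `X ⊆ Q.erase v` is a star with `lowB c Δ + 1` leaves at `v`.  Send
`x ∈ X` to itself if `G.Adj v x`, and to the type of the component of the vertex `a` from `StarS`
otherwise.  The type contains `x`, contains `v` and contains no other member of `X`, so the map is
injective on `X` (as a map to `V ⊕ Finset V`, or count the two parts of `X` separately); its values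
are counted by `exists_low`; so `X` has at most `lowB c Δ` members.
-/

set_option autoImplicit false
set_option linter.unusedSectionVars false

namespace Pool.Agent.CDM

open Finset Pool.Agent.CDom Pool.Agent.CDH

variable {V : Type} [Fintype V] [LinearOrder V] {G : SimpleGraph V}

open Classical in
/-- the vertices reached from `a` inside `F` -/
noncomputable def st_cmp (G : SimpleGraph V) (F : Finset V) (a : V) : Finset V :=
  univ.filter fun b => Conn G F a b

open Classical in
theorem st_mem_cmp {F : Finset V} {a b : V} : b ∈ st_cmp G F a ↔ Conn G F a b := by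
  unfold st_cmp
  rw [Finset.mem_filter]
  exact ⟨fun h => h.2, fun h => ⟨Finset.mem_univ _, h⟩⟩

theorem st_conn_cmp {F : Finset V} {a b : V} (h : Conn G F a b) :
    Conn G (st_cmp G F a) a b := by
  have h0 := h
  unfold Conn at h
  induction h with
  | refl => exact Relation.ReflTransGen.refl
  | @tail p q hp hpq ih =>
    exact Relation.ReflTransGen.tail (ih hp) ⟨hpq.1, st_mem_cmp.2 h0⟩

theorem st_cset {F : Finset V} (a : V) : CSet G (st_cmp G F a) := by
  have ha : a ∈ st_cmp G F a := st_mem_cmp.2 Relation.ReflTransGen.refl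
  refine ⟨⟨a, ha⟩, fun x hx y hy => ?_⟩
  exact conn_trans (conn_symm ha (st_conn_cmp (st_mem_cmp.1 hx))) (st_conn_cmp (st_mem_cmp.1 hy))

theorem st_cmp_eq {F : Finset V} {a b x : V} (ha : a ∈ F) (hb : b ∈ F) (hax : Conn G F a x)
    (hbx : Conn G F b x) : st_cmp G F a = st_cmp G F b := by
  ext y
  rw [st_mem_cmp, st_mem_cmp]
  exact ⟨fun h => conn_trans hbx (conn_trans (conn_symm ha hax) h),
    fun h => conn_trans hax (conn_trans (conn_symm hb hbx) h)⟩

open Classical in
theorem st_mem_nbW {W A : Finset V} {x : V} : x ∈ nbW G W A ↔ x ∈ W ∧ Nb G A x := by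
  unfold nbW
  rw [Finset.mem_filter]

open Classical in
theorem exists_noStar_low {c Δ : ℕ}
    (hG : RSparse G (fun v => Δ < (univ.filter fun u => G.Adj v u).card) c)
    {Q : Finset V} (hQ : Q.Nonempty) :
    ∃ v ∈ Q, NoStar G (lowB c Δ + 1) (Q.erase v) v := by
  set F : Finset V := Qᶜ with hF
  have hmemF : ∀ q, q ∈ F ↔ q ∉ Q := fun q => by rw [hF, Finset.mem_compl]
  set I : Finset (Finset V) := F.image fun a => nbW G Q (st_cmp G F a) with hI
  have : Nonempty V := ⟨hQ.choose⟩
  have hrep : ∀ τ ∈ I, ∃ a, a ∈ F ∧ nbW G Q (st_cmp G F a) = τ := by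
    intro τ hτ
    rw [hI, Finset.mem_image] at hτ
    exact hτ
  choose! r hr using hrep
  obtain ⟨v, hv, hlow⟩ := exists_low hG hQ I (fun τ => st_cmp G F (r τ))
    (fun τ _ => st_cset (r τ))
    (by
      intro τ hτ τ' hτ' hne
      rw [Finset.disjoint_left]
      intro b hb hb'
      apply hne
      rw [← (hr τ hτ).2, ← (hr τ' hτ').2,
        st_cmp_eq (hr τ hτ).1 (hr τ' hτ').1 (st_mem_cmp.1 hb) (st_mem_cmp.1 hb')])
    (by
      intro τ hτ
      rw [Finset.disjoint_left]
      intro b hb
      exact (hmemF b).1 (conn_mem (hr τ hτ).1 (st_mem_cmp.1 hb)))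
    (by
      intro τ hτ τ' hτ' hne h
      apply hne
      rw [← (hr τ hτ).2, ← (hr τ' hτ').2]
      exact h)
  refine ⟨v, hv, ?_⟩
  rintro ⟨X, hX, hXc, hX1, hX2⟩
  rw [Finset.insert_erase hv, ← hF] at hX2
  have hXQ : ∀ x ∈ X, x ∈ Q := fun x hx => Finset.mem_of_mem_erase (hX hx)
  have hch : ∀ x ∈ X, ∃ a, ¬ G.Adj v x → (a ∈ F ∧ G.Adj v a ∧
      (∃ b, Conn G F a b ∧ G.Adj b x) ∧
      ∀ y ∈ X, y ≠ x → ∀ b, Conn G F a b → ¬ G.Adj b y) := by
    intro x hx
    rcases hX2 x hx with h1 | ⟨a, ha⟩
    · exact ⟨x, fun h2 => absurd h1 h2⟩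
    · exact ⟨a, fun _ => ha⟩
  choose! a ha using hch
  have hA : (X.filter fun x => G.Adj v x).card ≤ (Q.filter fun y => G.Adj v y).card := by
    refine Finset.card_le_card fun x hx => ?_
    rw [Finset.mem_filter] at hx ⊢
    exact ⟨hXQ x hx.1, hx.2⟩
  have hB : (X.filter fun x => ¬ G.Adj v x).card ≤
      (I.filter fun τ => Nb G (st_cmp G F (r τ)) v).card := by
    refine Finset.card_le_card_of_injOn (fun x => nbW G Q (st_cmp G F (a x))) ?_ ?_
    · intro x hx
      rw [Finset.mem_coe, Finset.mem_filter] at hx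
      obtain ⟨h1, h2, _, _⟩ := ha x hx.1 hx.2
      change nbW G Q (st_cmp G F (a x)) ∈ _
      have hmem : nbW G Q (st_cmp G F (a x)) ∈ I := by
        rw [hI]
        exact Finset.mem_image_of_mem (fun a => nbW G Q (st_cmp G F a)) h1
      rw [Finset.mem_coe, Finset.mem_filter]
      refine ⟨hmem, ?_⟩
      have h3 : v ∈ nbW G Q (st_cmp G F (r (nbW G Q (st_cmp G F (a x))))) := by
        rw [(hr _ hmem).2, st_mem_nbW]
        exact ⟨hv, a x, st_mem_cmp.2 Relation.ReflTransGen.refl, h2.symm⟩
      exact (st_mem_nbW.1 h3).2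
    · intro x hx y hy hxy
      rw [Finset.mem_coe, Finset.mem_filter] at hx hy
      by_contra hne
      obtain ⟨_, _, ⟨b, hb1, hb2⟩, _⟩ := ha x hx.1 hx.2
      obtain ⟨_, _, _, h4⟩ := ha y hy.1 hy.2
      have h5 : x ∈ nbW G Q (st_cmp G F (a x)) := st_mem_nbW.2
        ⟨hXQ x hx.1, b, st_mem_cmp.2 hb1, hb2⟩
      have hxy' : nbW G Q (st_cmp G F (a x)) = nbW G Q (st_cmp G F (a y)) := hxy
      rw [hxy', st_mem_nbW] at h5
      obtain ⟨_, b', hb', hb''⟩ := h5
      exact h4 x hx.1 hne b' (st_mem_cmp.1 hb') hb''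
  have hC : (X.filter fun x => G.Adj v x).card + (X.filter fun x => ¬ G.Adj v x).card = X.card :=
    Finset.card_filter_add_card_filter_not _
  omega

end Pool.Agent.CDM
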